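import Pool.Agent.Helper23.UDefs
import Pool.Agent.Helper68.G2b4
import Pool.Agent.Helper43.TTF.G

/-!
# Module U2 of project U: the algebra of approximable sequences
-/

open scoped InnerProductSpace Topology
open ContinuousLinearMap Filter

namespace Pool.Agent.Helper23

universe u

variable {H : Type u} [NormedAddCommGroup H] [InnerProductSpace ℂ H] [CompleteSpace H]
variable {M N : VonNeumannAlgebra H} {ξ : H} {E : (H →L[ℂ] H) → (H →L[ℂ] H)}

section U2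

lemma U2.bdd_nonneg {G : Type*} [NormedAddCommGroup G] {x : ℕ → G} (h : Bdd x) :
    ∃ C : ℝ, 0 ≤ C ∧ ∀ n, ‖x n‖ ≤ C := by
  obtain ⟨C, hC⟩ := h
  exact ⟨C, (norm_nonneg _).trans (hC 0), hC⟩

theorem AppR_add {x y : ℕ → H →L[ℂ] H} (hx : x ∈ AppR M ξ) (hy : y ∈ AppR M ξ) :
    (fun n => x n + y n) ∈ AppR M ξ := by
  obtain ⟨hxM, ⟨C, hC⟩, hx⟩ := hx
  obtain ⟨hyM, ⟨D, hD⟩, hy⟩ := hy
  refine ⟨fun n => add_mem (hxM n) (hyM n), ⟨C + D, fun n => ?_⟩, fun ε hε => ?_⟩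
  · exact (norm_add_le _ _).trans (add_le_add (hC n) (hD n))
  · obtain ⟨r, hr, ⟨A, hA⟩, h1⟩ := hx (ε / 2) (by positivity)
    obtain ⟨s, hs, ⟨B, hB⟩, h2⟩ := hy (ε / 2) (by positivity)
    refine ⟨fun n => r n + s n, fun n => add_mem (hr n) (hs n),
      ⟨A + B, fun n => (norm_add_le _ _).trans (add_le_add (hA n) (hB n))⟩, ?_⟩
    filter_upwards [h1, h2] with n h3 h4
    have e1 : (x n + y n) ξ - (r n + s n) ξ = (x n ξ - r n ξ) + (y n ξ - s n ξ) := by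
      rw [add_apply, add_apply]; abel
    rw [e1]
    linarith [norm_add_le (x n ξ - r n ξ) (y n ξ - s n ξ)]

theorem AppR_smul (c : ℂ) {x : ℕ → H →L[ℂ] H} (hx : x ∈ AppR M ξ) :
    (fun n => c • x n) ∈ AppR M ξ := by
  obtain ⟨hxM, ⟨C, hC⟩, hx⟩ := hx
  refine ⟨fun n => smul_mem' c (hxM n), ⟨‖c‖ * C, fun n => ?_⟩, fun ε hε => ?_⟩
  · rw [norm_smul]
    exact mul_le_mul_of_nonneg_left (hC n) (norm_nonneg _)
  · obtain ⟨r, hr, ⟨A, hA⟩, h1⟩ := hx (ε / (‖c‖ + 1)) (by positivity)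
    refine ⟨fun n => c • r n, fun n => smul_mem' c (hr n), ⟨‖c‖ * A, fun n => ?_⟩, ?_⟩
    · rw [norm_smul]
      exact mul_le_mul_of_nonneg_left (hA n) (norm_nonneg _)
    filter_upwards [h1] with n h3
    have e1 : (c • x n) ξ - (c • r n) ξ = c • (x n ξ - r n ξ) := by
      rw [smul_apply, smul_apply, smul_sub]
    rw [e1, norm_smul]
    calc ‖c‖ * ‖x n ξ - r n ξ‖ ≤ (‖c‖ + 1) * (ε / (‖c‖ + 1)) := by gcongr; linarith
      _ = ε := by field_simp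

theorem AppR_mul {x y : ℕ → H →L[ℂ] H} (hx : x ∈ AppR M ξ) (hy : y ∈ AppR M ξ) :
    (fun n => x n * y n) ∈ AppR M ξ := by
  obtain ⟨hxM, hxB, hx⟩ := hx
  obtain ⟨hyM, hyB, hy⟩ := hy
  obtain ⟨C, hC0, hC⟩ := U2.bdd_nonneg hxB
  obtain ⟨D, hD0, hD⟩ := U2.bdd_nonneg hyB
  refine ⟨fun n => mul_mem (hxM n) (hyM n), ⟨C * D, fun n => ?_⟩, fun ε hε => ?_⟩
  · exact (norm_mul_le _ _).trans (mul_le_mul (hC n) (hD n) (norm_nonneg _) hC0)
  · obtain ⟨s, hs, hsB, h2⟩ := hy (ε / (2 * (C + 1))) (by positivity)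
    obtain ⟨B, hB0, hB⟩ := U2.bdd_nonneg hsB
    obtain ⟨r, hr, hrB, h1⟩ := hx (ε / (2 * (B + 1))) (by positivity)
    obtain ⟨A, hA0, hA⟩ := U2.bdd_nonneg hrB
    refine ⟨fun n => s n * r n, fun n => mul_mem (hs n) (hr n), ⟨B * A, fun n => ?_⟩, ?_⟩
    · exact (norm_mul_le _ _).trans (mul_le_mul (hB n) (hA n) (norm_nonneg _) hB0)
    filter_upwards [h1, h2] with n h3 h4
    have e1 : (x n * y n) ξ - (s n * r n) ξ = x n (y n ξ - s n ξ) + s n (x n ξ - r n ξ) := by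
      have := commute_apply (hxM n) (hs n) ξ
      change x n (y n ξ) - s n (r n ξ) = _
      rw [map_sub, map_sub, this]
      abel
    rw [e1]
    calc ‖x n (y n ξ - s n ξ) + s n (x n ξ - r n ξ)‖
        ≤ ‖x n (y n ξ - s n ξ)‖ + ‖s n (x n ξ - r n ξ)‖ := norm_add_le _ _
      _ ≤ C * (ε / (2 * (C + 1))) + B * (ε / (2 * (B + 1))) := by
          gcongr
          · exact ((x n).le_of_opNorm_le (hC n) _).trans (mul_le_mul_of_nonneg_left h4 hC0)
          · exact ((s n).le_of_opNorm_le (hB n) _).trans (mul_le_mul_of_nonneg_left h3 hB0)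
      _ ≤ (C + 1) * (ε / (2 * (C + 1))) + (B + 1) * (ε / (2 * (B + 1))) := by
          gcongr <;> linarith
      _ = ε := by field_simp; ring

/-- bounded sequences of scalars -/
theorem AppR_scalar {c : ℕ → ℂ} (hc : Bdd c) :
    (fun n => c n • (1 : H →L[ℂ] H)) ∈ AppR M ξ := by
  obtain ⟨C, hC0, hC⟩ := U2.bdd_nonneg hc
  have hB : Bdd fun n => c n • (1 : H →L[ℂ] H) := by
    refine ⟨C * 1, fun n => ?_⟩
    rw [norm_smul]
    exact mul_le_mul (hC n) (ContinuousLinearMap.norm_id_le) (norm_nonneg _) hC0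
  refine ⟨fun n => smul_mem' _ (one_mem M), hB, fun ε hε => ?_⟩
  refine ⟨fun n => c n • (1 : H →L[ℂ] H), fun n => smul_mem' _ (one_mem _), hB, ?_⟩
  filter_upwards with n
  rw [sub_self, norm_zero]
  exact hε.le

/-- constant sequences -/
theorem AppR_const (hd : Dense (orb M.commutant ξ : Set H)) {x : H →L[ℂ] H} (hx : x ∈ M) :
    (fun _ => x) ∈ AppR M ξ := by
  refine ⟨fun _ => hx, ⟨‖x‖, fun _ => le_rfl⟩, fun ε hε => ?_⟩
  obtain ⟨z, hz, r, hr, hrz⟩ := Metric.dense_iff.1 hd (x ξ) ε hε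
  refine ⟨fun _ => r, fun _ => hr, ⟨‖r‖, fun _ => le_rfl⟩, ?_⟩
  filter_upwards with n
  rw [Metric.mem_ball, dist_eq_norm, norm_sub_rev] at hz
  rw [hrz]
  exact hz.le

/-- closedness -/
theorem AppR_limit {x : ℕ → H →L[ℂ] H} (hx : ∀ n, x n ∈ M) (hb : Bdd x)
    (h : ∀ ε : ℝ, 0 < ε → ∃ y ∈ AppR M ξ, ∀ᶠ n in (UU : Filter ℕ), ‖x n ξ - y n ξ‖ ≤ ε) :
    x ∈ AppR M ξ := by
  refine ⟨hx, hb, fun ε hε => ?_⟩
  obtain ⟨y, ⟨-, -, hy⟩, h1⟩ := h (ε / 2) (by positivity)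
  obtain ⟨r, hr, hrB, h2⟩ := hy (ε / 2) (by positivity)
  refine ⟨r, hr, hrB, ?_⟩
  filter_upwards [h1, h2] with n h3 h4
  have e1 : x n ξ - r n ξ = (x n ξ - y n ξ) + (y n ξ - r n ξ) := by abel
  rw [e1]
  linarith [norm_add_le (x n ξ - y n ξ) (y n ξ - r n ξ)]

namespace U2

open Pool.Agent.Helper43.TTF

/-- `E x` and `x` have the same form on the closure of `N ξ` -/
lemma inner_E_K0 (S : Setting M N E ξ) {x : H →L[ℂ] H} (hx : x ∈ M) {k k' : H}
    (hk : k ∈ K0 N ξ) (hk' : k' ∈ K0 N ξ) : ⟪k, E x k'⟫_ℂ = ⟪k, x k'⟫_ℂ := by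
  refine K0_induction (p := fun k => ⟪k, E x k'⟫_ℂ = ⟪k, x k'⟫_ℂ)
    (isClosed_eq (by fun_prop) (by fun_prop)) (fun a ha => ?_) hk
  refine K0_induction (p := fun k' => ⟪a ξ, E x k'⟫_ℂ = ⟪a ξ, x k'⟫_ℂ)
    (isClosed_eq (by fun_prop) (by fun_prop)) (fun b hb => ?_) hk'
  exact S.E_inner ha hb hx

lemma form_eq (S : Setting M N E ξ) {a s : H →L[ℂ] H} (ha : a ∈ M) (hs : s ∈ N.commutant)
    (hsK : s ξ ∈ K0 N ξ) :
    ⟪ξ, E (star a * a) ((star s * s) ξ)⟫_ℂ = ((‖a (s ξ)‖ ^ 2 : ℝ) : ℂ) := by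
  have hx : star a * a ∈ M := mul_mem (star_mem ha) ha
  have hE := S.E_mem _ hx
  have h1 : E (star a * a) ((star s * s) ξ) = (star s) (E (star a * a) (s ξ)) :=
    commute_apply hE (star_mem hs) (s ξ)
  rw [h1, inner_star_right, inner_E_K0 S hx hsK hsK, norm_sq_apply]
  rfl

end U2

open Pool.Agent.Helper43.TTF in
/-- compression of vectors of the commutant -/
theorem Setting.exists_comm_proj (S : Setting M N E ξ) {r : H →L[ℂ] H} (hr : r ∈ M.commutant) :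
    ∃ r' ∈ M.commutant, ‖r'‖ ≤ ‖r‖ ∧ r' ξ = (K0 N ξ).starProjection (r ξ) := by
  set e : H →L[ℂ] H := p0 N ξ with he
  have heN : e ∈ N.commutant := proj_orb_mem N ξ
  have hrN : r ∈ N.commutant := S.comm_le hr
  have hee : ∀ v, e (e v) = e v := fun v => p0_of_mem (p0_mem v)
  have hes : star e = e := by
    apply ContinuousLinearMap.ext
    intro v
    refine ext_inner_right ℂ fun w => ?_
    rw [inner_star_left]
    exact (p0_symm v w).symm
  have hes2 : star e * e = e := by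
    rw [hes]
    exact ContinuousLinearMap.ext hee
  have hnorm : ∀ v, ‖e v‖ ≤ ‖v‖ := fun v => Submodule.norm_starProjection_apply_le _ _
  have hξ : ξ ∈ K0 N ξ := by
    have := mem_K0 (ξ := ξ) (one_mem N)
    rwa [one_apply_eq_self] at this
  have heξ : e ξ = ξ := p0_of_mem hξ
  -- the operator `T = ‖r‖² e - (e r e)* (e r e)`
  set ρ : H →L[ℂ] H := e * r * e with hρ
  have hρN : ρ ∈ N.commutant := mul_mem (mul_mem heN hrN) heN
  set T : H →L[ℂ] H := ((‖r‖ ^ 2 : ℝ) : ℂ) • (star e * e) - star ρ * ρ with hT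
  have hTN : T ∈ N.commutant := sub_mem (smul_mem' _ (mul_mem (star_mem heN) heN))
    (mul_mem (star_mem hρN) hρN)
  have hTv : ∀ v, ⟪v, T v⟫_ℂ = ((‖r‖ ^ 2 * ‖e v‖ ^ 2 - ‖ρ v‖ ^ 2 : ℝ) : ℂ) := by
    intro v
    rw [hT, sub_apply, smul_apply, inner_sub_right, inner_smul_right]
    change _ * ⟪v, (star e) (e v)⟫_ℂ - ⟪v, (star ρ) (ρ v)⟫_ℂ = _
    rw [← norm_sq_apply, ← norm_sq_apply]
    push_cast
    ring
  have hρv : ∀ v, ‖ρ v‖ ≤ ‖r‖ * ‖e v‖ := fun v => (hnorm _).trans (r.le_opNorm _)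
  have hT0 : 0 ≤ T := by
    rw [ContinuousLinearMap.nonneg_iff_isPositive, ContinuousLinearMap.isPositive_iff_complex]
    intro v
    have h1 : ⟪T v, v⟫_ℂ = ((‖r‖ ^ 2 * ‖e v‖ ^ 2 - ‖ρ v‖ ^ 2 : ℝ) : ℂ) := by
      rw [← inner_conj_symm, hTv, Complex.conj_ofReal]
    rw [h1, RCLike.re_to_complex, Complex.ofReal_re]
    refine ⟨rfl, ?_⟩
    have h2 := pow_le_pow_left₀ (norm_nonneg _) (hρv v) 2
    rw [mul_pow] at h2
    linarith
  obtain ⟨t, htN, hts, htT⟩ : ∃ Y ∈ N.commutant, star Y = Y ∧ star Y * Y = T := by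
    have : IsClosed (N.commutant : Set (H →L[ℂ] H)) := vN_isClosed _
    have : IsClosed (N.commutant.toStarSubalgebra : Set (H →L[ℂ] H)) := vN_isClosed _
    refine ⟨CFC.sqrt T, ?_, (IsSelfAdjoint.of_nonneg (CFC.sqrt_nonneg T)).star_eq, ?_⟩
    · rw [CFC.sqrt_eq_real_sqrt T hT0]
      have h1 : cfcₙ Real.sqrt T ∈ N.commutant.toStarSubalgebra := by
        refine cfcₙ_mem (s := N.commutant.toStarSubalgebra) Real.sqrt ?_
        exact hTN
      exact h1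
    · rw [(IsSelfAdjoint.of_nonneg (CFC.sqrt_nonneg T)).star_eq]
      exact CFC.sqrt_mul_sqrt_self T hT0
  -- `t` maps into the closure of `N ξ`
  have ht1 : ∀ v, e v = 0 → t v = 0 := by
    intro v hv
    have h1 := norm_sq_apply t v
    have h2 : ⟪v, (star t) (t v)⟫_ℂ = ⟪v, T v⟫_ℂ := by rw [← htT]; rfl
    rw [h2, hTv, hv, norm_zero] at h1
    have h3 : ‖t v‖ ^ 2 = ‖r‖ ^ 2 * 0 ^ 2 - ‖ρ v‖ ^ 2 := Complex.ofReal_injective h1
    have h4 : ‖t v‖ ^ 2 ≤ 0 := by rw [h3]; nlinarith [sq_nonneg ‖ρ v‖]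
    have h5 : ‖t v‖ = 0 := by nlinarith [norm_nonneg (t v)]
    exact norm_eq_zero.1 h5
  have ht2 : ∀ v, t (e v) = t v := by
    intro v
    have := ht1 (v - e v) (by rw [map_sub, hee, sub_self])
    rw [map_sub, sub_eq_zero] at this
    exact this.symm
  have ht3 : e (t ξ) = t ξ := by
    refine ext_inner_right ℂ fun w => ?_
    rw [p0_symm, ← hts, inner_star_left, inner_star_left, ht2]
  have htK : t ξ ∈ K0 N ξ := by rw [← ht3]; exact p0_mem _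
  -- key inequality
  have key : ∀ a ∈ M, ‖a (e (r ξ))‖ ≤ ‖r‖ * ‖a ξ‖ := by
    intro a ha
    have e1 := U2.form_eq S ha htN htK
    have e2 := U2.form_eq S ha heN (by rw [heξ]; exact hξ)
    have e3 := U2.form_eq S ha hρN (p0_mem _)
    have hρξ : ρ ξ = e (r ξ) := by
      change e (r (e ξ)) = _
      rw [heξ]
    rw [htT, hT, sub_apply, smul_apply, map_sub, map_smul, inner_sub_right, inner_smul_right,
      e2, e3, heξ, hρξ] at e1
    have e4 : ‖r‖ ^ 2 * ‖a ξ‖ ^ 2 - ‖a (e (r ξ))‖ ^ 2 = ‖a (t ξ)‖ ^ 2 := by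
      apply Complex.ofReal_injective
      push_cast at e1 ⊢
      exact e1
    refine (pow_le_pow_iff_left₀ (norm_nonneg _) (by positivity) two_ne_zero).1 ?_
    rw [mul_pow]
    nlinarith [sq_nonneg ‖a (t ξ)‖]
  obtain ⟨y, hy, hye, hyn⟩ := exists_op M (ξ := ξ) (η := e (r ξ)) (norm_nonneg r) S.cyc key
  refine ⟨y, hy, hyn, ?_⟩
  have := hye 1 (one_mem M)
  rw [one_apply_eq_self, one_apply_eq_self] at this
  exact this

open Pool.Agent.Helper43.TTF in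
theorem Setting.AppR_E (S : Setting M N E ξ) {x : ℕ → H →L[ℂ] H} (hx : x ∈ AppR M ξ) :
    (fun n => E (x n)) ∈ AppR M ξ := by
  obtain ⟨hxM, ⟨C, hC⟩, hx⟩ := hx
  refine ⟨fun n => S.le _ (S.E_mem _ (hxM n)), ⟨C, fun n => (S.E_norm (hxM n)).trans (hC n)⟩,
    fun ε hε => ?_⟩
  obtain ⟨r, hr, ⟨A, hA⟩, h1⟩ := hx ε hε
  choose r' hr' hn he using fun n => S.exists_comm_proj (hr n)
  refine ⟨r', hr', ⟨A, fun n => (hn n).trans (hA n)⟩, ?_⟩
  filter_upwards [h1] with n h3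
  rw [he, ← E_apply S (hxM n)]
  have e1 : p0 N ξ (x n ξ) - (K0 N ξ).starProjection (r n ξ) = p0 N ξ (x n ξ - r n ξ) := by
    rw [map_sub]; rfl
  rw [e1]
  exact (Submodule.norm_starProjection_apply_le _ _).trans h3

open Pool.Agent.Helper43.TTF in
lemma U2.E_star' (S : Setting M N E ξ) {a : H →L[ℂ] H} (ha : a ∈ M) :
    star (E a) = E (star a) := by
  have hE := S.E_mem a ha
  have hE' := S.E_mem _ (star_mem ha)
  have h1 : (star (E a)) ξ = E (star a) ξ := by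
    rw [← E_apply S (star_mem ha)]
    symm
    refine p0_eq (mem_K0 (star_mem hE)) fun b hb => ?_
    rw [inner_star_right, inner_star_right]
    have h2 := S.E_inner (one_mem N) hb ha
    rw [one_apply_eq_self] at h2
    rw [← inner_conj_symm, h2, inner_conj_symm]
  have h4 : (star (E a) - E (star a)) ξ = 0 := by rw [sub_apply, h1, sub_self]
  exact sub_eq_zero.1 (S.sep _ (sub_mem (star_mem (S.le _ hE)) (S.le _ hE')) h4)

theorem Setting.AppS_E (S : Setting M N E ξ) {x : ℕ → H →L[ℂ] H} (hx : x ∈ AppS M ξ) :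
    (fun n => E (x n)) ∈ AppS M ξ := by
  refine ⟨S.AppR_E hx.1, ?_⟩
  have h1 : (fun n => star (E (x n))) = fun n => E (star (x n)) := by
    funext n
    exact U2.E_star' S (hx.1.1 n)
  rw [h1]
  exact S.AppR_E hx.2

end U2

end Pool.Agent.Helper23
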