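import Pool.Agent.Helper66.PAP.Star
import Pool.Agent.Helper4.PU.Defs

/-!
# Project PU, module 7: the small prime factors of an almost prime
-/

set_option autoImplicit false

open Finset
open ArithmeticFunction (cardFactors)

namespace Pool.Agent.Helper4.PU

open Pool.Agent.Helper1.MT

private theorem list_prod_le {z : ℝ} (hz : 0 ≤ z) (l : List ℕ) (h : ∀ p ∈ l, (p : ℝ) ≤ z) :
    ((l.prod : ℕ) : ℝ) ≤ z ^ l.length := by
  induction l with
  | nil => simp
  | cons a l ih =>
    rw [List.prod_cons, List.length_cons, pow_succ, Nat.cast_mul, mul_comm]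
    exact mul_le_mul (ih fun p hp => h p (List.mem_cons_of_mem _ hp))
      (h a List.mem_cons_self) (Nat.cast_nonneg _) (pow_nonneg hz _)

private theorem exists_large {m r : ℕ} {z : ℝ} (hm : 0 < m) (hz : 1 ≤ z) (hzm : z ^ r < (m : ℝ))
    (hr : cardFactors m ≤ r) : ∃ p : ℕ, p.Prime ∧ p ∣ m ∧ z < (p : ℝ) := by
  by_contra hcon
  push Not at hcon
  have h1 := list_prod_le (zero_le_one.trans hz) m.primeFactorsList fun p hp =>
    hcon p (Nat.prime_of_mem_primeFactorsList hp) (Nat.dvd_of_mem_primeFactorsList hp)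
  rw [Nat.prod_primeFactorsList hm.ne', ← ArithmeticFunction.cardFactors_apply] at h1
  have h2 : z ^ cardFactors m ≤ z ^ r := pow_le_pow_right₀ hz hr
  linarith

private theorem card_le {m : ℕ} (hm : 0 < m) {B : Finset ℕ} (hB : ∀ p ∈ B, p.Prime ∧ p ∣ m) :
    B.card ≤ cardFactors m := by
  have h1 : B ⊆ m.primeFactorsList.toFinset := by
    intro p hp
    rw [List.mem_toFinset, Nat.mem_primeFactorsList hm.ne']
    exact hB p hp
  rw [ArithmeticFunction.cardFactors_apply]
  exact (Finset.card_le_card h1).trans (List.toFinset_card_le _)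

/-- Let `m = n + t`, `A` the set of the `p ∈ PS R W` with `p ≤ z`, `p ∣ m`. Some prime `p₀ > z`
divides `m`, otherwise `m ≤ z ^ Ω(m) ≤ z ^ r`. So `A ∪ {p₀}` is a set of prime factors of `m` and
`|A| + 1 ≤ ω(m) ≤ Ω(m) ≤ r`. If `(v + t, W) ≠ 1` there is a prime `q ∣ W`, `q ∣ v + t`, so
`q ∣ m`, `q ≤ z`, `q ∉ PS R W`, and `A ∪ {p₀, q}` is a set of `|A| + 2` prime factors. -/
theorem almSet : AlmSet := by
  intro R W r t n v z _ _ hn hnv hWz _ hz hzr hΩ
  classical
  have hm : 0 < n + t := by omega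
  obtain ⟨p0, hp0, hp0m, hp0z⟩ := exists_large hm hz hzr hΩ
  have hPS : ∀ p ∈ PS R W, p.Prime ∧ ¬ p ∣ W := fun p hp => (Finset.mem_filter.1 hp).2
  set A : Finset ℕ := (PS R W).filter (fun p => (p : ℝ) ≤ z ∧ p ∣ n + t) with hA
  have hA1 : ∀ p ∈ A, p.Prime ∧ p ∣ n + t := fun p hp =>
    ⟨(hPS p (Finset.mem_filter.1 hp).1).1, (Finset.mem_filter.1 hp).2.2⟩
  have hp0A : p0 ∉ A := fun h => absurd (Finset.mem_filter.1 h).2.1 (not_le.2 hp0z)
  refine ⟨A, Finset.filter_subset _ _, fun p hp => (Finset.mem_filter.1 hp).2.1, ?_, ?_, ?_⟩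
  · intro p hp hpz
    exact ⟨fun h => Finset.mem_filter.2 ⟨hp, hpz, h⟩, fun h => (hA1 p h).2⟩
  · rw [← Finset.card_insert_of_notMem hp0A]
    refine (card_le hm ?_).trans hΩ
    intro p hp
    rcases Finset.mem_insert.1 hp with rfl | hp
    · exact ⟨hp0, hp0m⟩
    · exact hA1 p hp
  · intro hcop
    obtain ⟨q, hq, hq1, hq2⟩ := Nat.Prime.not_coprime_iff_dvd.1 hcop
    have hqm : q ∣ n + t := by
      have h1 : n + t ≡ v + t [MOD q] := (hnv.of_dvd hq2).add_right t
      exact (h1.dvd_iff dvd_rfl).2 hq1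
    have hqA : q ∉ insert p0 A := by
      intro h
      rcases Finset.mem_insert.1 h with h | h
      · exact absurd (hWz q hq hq2) (not_le.2 (h ▸ hp0z))
      · exact (hPS q (Finset.mem_filter.1 h).1).2 hq2
    have h2 : A.card + 2 = (insert q (insert p0 A)).card := by
      rw [Finset.card_insert_of_notMem hqA, Finset.card_insert_of_notMem hp0A]
    rw [h2]
    refine (card_le hm ?_).trans hΩ
    intro p hp
    rcases Finset.mem_insert.1 hp with rfl | hp
    · exact ⟨hq, hqm⟩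
    rcases Finset.mem_insert.1 hp with rfl | hp
    · exact ⟨hp0, hp0m⟩
    · exact hA1 p hp

end Pool.Agent.Helper4.PU
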