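import Pool.Agent.Helper4.AR.Subsets
import Pool.Agent.Helper1.MT.BoundsU
import Pool.Agent.Helper4.PU.Defs

/-!
# Project PU, module 5: the factor of the bad primes
-/

set_option autoImplicit false

open Finset

namespace Pool.Agent.Helper4.PU

open Pool.Agent.Helper1.MT

/-- The product over the union is at most the product of the products. The primes in
`(R^(1/r), R]`: `∏ (1 + 1/p) ≤ exp (∑ 1/p) ≤ exp (log r + C)` by
`Pool.Agent.Helper4.AR.large_sum` with `s = 1`, `T` the singletons. The others: they divide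
`∏ i, (h i - t).natAbs` (which is not `0`) and do not divide `W`. -/
theorem badProd : BadProd := by
  classical
  obtain ⟨C, hC, hL⟩ := Pool.Agent.Helper4.AR.large_sum
  refine ⟨Real.exp C, Real.exp_pos _, ?_⟩
  intro κ _ h t R W r hR hr ht hw
  have hr0 : (0 : ℝ) < r := by exact_mod_cast hr
  have hR0 : (0 : ℝ) < R := by
    have : 0 < R := by omega
    exact_mod_cast this
  have hR1 : (1 : ℝ) < R := by
    have : 1 < R := by omega
    exact_mod_cast this
  set w : ℝ := (R : ℝ) ^ (1 / (r : ℝ)) with hwdef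
  have hwR : w ≤ R := by
    rw [hwdef]
    calc (R : ℝ) ^ (1 / (r : ℝ)) ≤ (R : ℝ) ^ (1 : ℝ) := by
          apply Real.rpow_le_rpow_of_exponent_le hR1.le
          rw [div_le_one hr0]
          exact_mod_cast hr
      _ = R := Real.rpow_one _
  have hlogw : Real.log w = 1 / r * Real.log R := by rw [hwdef, Real.log_rpow hR0]
  have hlogR : 0 < Real.log R := Real.log_pos hR1
  -- the primes as natural numbers
  have hpp : ∀ p : PS R W, (p : ℕ).Prime ∧ ¬ (p : ℕ) ∣ W ∧ (p : ℕ) ≤ R := by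
    intro p
    have := p.2
    unfold PS at this
    rw [Finset.mem_filter, Finset.mem_range] at this
    exact ⟨this.2.1, this.2.2, by omega⟩
  set P1 : Finset ℕ := (PS R W).filter (fun p => w < (p : ℝ)) with hP1
  set Q : Finset ℕ := (∏ i, ((h i : ℤ) - t).natAbs).primeFactors.filter (fun p => ¬ p ∣ W) with hQ
  have hne : ∏ i, ((h i : ℤ) - t).natAbs ≠ 0 := by
    rw [Finset.prod_ne_zero_iff]
    intro i _
    rw [Int.natAbs_ne_zero, sub_ne_zero]
    exact_mod_cast ht i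
  have hone : ∀ p : ℕ, (1 : ℝ) ≤ 1 + 1 / (p : ℝ) := fun p => by
    have : (0 : ℝ) ≤ 1 / (p : ℝ) := by positivity
    linarith
  -- the product as a product of natural numbers
  have e1 : ∏ p ∈ univ.filter (fun p : PS R W => w < ((p : ℕ) : ℝ) ∨
      ∃ i, ((p : ℕ) : ℤ) ∣ (h i : ℤ) - t), (1 + wp R W p) =
      ∏ p ∈ (univ.filter (fun p : PS R W => w < ((p : ℕ) : ℝ) ∨
      ∃ i, ((p : ℕ) : ℤ) ∣ (h i : ℤ) - t)).image (fun p : PS R W => (p : ℕ)), (1 + 1 / (p : ℝ)) := by
    rw [Finset.prod_image (fun x _ y _ h => Subtype.ext h)]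
    rfl
  have e2 : (univ.filter (fun p : PS R W => w < ((p : ℕ) : ℝ) ∨
      ∃ i, ((p : ℕ) : ℤ) ∣ (h i : ℤ) - t)).image (fun p : PS R W => (p : ℕ)) ⊆ P1 ∪ Q := by
    intro q hq
    rw [Finset.mem_image] at hq
    obtain ⟨p, hp, rfl⟩ := hq
    rw [Finset.mem_filter] at hp
    obtain ⟨hp1, hp2, _⟩ := hpp p
    rcases hp.2 with hlt | ⟨i, hi⟩
    · exact Finset.mem_union_left _ (Finset.mem_filter.mpr ⟨p.2, hlt⟩)
    · refine Finset.mem_union_right _ (Finset.mem_filter.mpr ⟨?_, hp2⟩)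
      rw [Nat.mem_primeFactors]
      refine ⟨hp1, ?_, hne⟩
      exact (Int.natCast_dvd.mp hi).trans (Finset.dvd_prod_of_mem _ (Finset.mem_univ i))
  have e3 : ∏ p ∈ P1, (1 + 1 / (p : ℝ)) ≤ Real.exp C * r := by
    have f1 : ∏ p ∈ P1, (1 + 1 / (p : ℝ)) ≤ Real.exp (∑ p ∈ P1, 1 / (p : ℝ)) := by
      rw [Real.exp_sum]
      refine Finset.prod_le_prod (fun p _ => le_trans zero_le_one (hone p)) fun p _ => ?_
      have := Real.add_one_le_exp (1 / (p : ℝ))
      linarith
    have f2 := hL w R hw hwR 1 (P1.image (fun p => ({p} : Finset ℕ))) (by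
      intro A hA
      rw [Finset.mem_image] at hA
      obtain ⟨p, hp, rfl⟩ := hA
      rw [hP1, Finset.mem_filter] at hp
      obtain ⟨hp1, _, hp3⟩ := hpp ⟨p, hp.1⟩
      refine ⟨Finset.card_singleton _, fun q hq => ?_⟩
      rw [Finset.mem_singleton] at hq
      subst hq
      exact ⟨hp1, hp.2, by exact_mod_cast hp3⟩)
    rw [Finset.sum_image (fun x _ y _ h => Finset.singleton_injective h)] at f2
    simp only [Finset.prod_singleton, pow_one, Nat.factorial_one, Nat.cast_one, div_one] at f2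
    refine f1.trans ((Real.exp_le_exp.mpr f2).trans ?_)
    have f3 : Real.log R / Real.log w = r := by
      rw [hlogw]
      field_simp
    rw [f3, Real.exp_add, Real.exp_log hr0, mul_comm]
  have e4 : Sg h W t = ∏ p ∈ Q, (1 + 1 / (p : ℝ)) := rfl
  have hQ0 : 1 ≤ ∏ p ∈ Q, (1 + 1 / (p : ℝ)) := by
    refine Finset.one_le_prod ?_
    intro p _
    exact hone p
  rw [e1]
  calc ∏ p ∈ (univ.filter (fun p : PS R W => w < ((p : ℕ) : ℝ) ∨
      ∃ i, ((p : ℕ) : ℤ) ∣ (h i : ℤ) - t)).image (fun p : PS R W => (p : ℕ)), (1 + 1 / (p : ℝ))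
      ≤ ∏ p ∈ P1 ∪ Q, (1 + 1 / (p : ℝ)) :=
        Finset.prod_le_prod_of_subset_of_one_le e2 (fun p _ => le_trans zero_le_one (hone p))
          (fun p _ _ => hone p)
    _ ≤ (∏ p ∈ P1, (1 + 1 / (p : ℝ))) * ∏ p ∈ Q, (1 + 1 / (p : ℝ)) := by
        rw [← Finset.prod_union_inter]
        have f4 : 1 ≤ ∏ p ∈ P1 ∩ Q, (1 + 1 / (p : ℝ)) := Finset.one_le_prod fun p _ => hone p
        have f5 : 0 ≤ ∏ p ∈ P1 ∪ Q, (1 + 1 / (p : ℝ)) :=
          Finset.prod_nonneg fun p _ => le_trans zero_le_one (hone p)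
        nlinarith
    _ ≤ Real.exp C * r * Sg h W t := by
        rw [e4]
        exact mul_le_mul_of_nonneg_right e3 (le_trans zero_le_one hQ0)

end Pool.Agent.Helper4.PU
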