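import Pool.Agent.Helper12.MT.Star
import Pool.Agent.Helper87.MT.Tuple
import Pool.Agent.Helper66.PV.BoundsX0
import Pool.Agent.Helper4.PU.Defs

/-!
# Project PU, module 2: the energy with additional factors
-/

set_option autoImplicit false

open Finset

namespace Pool.Agent.Helper4.PU

open Pool.Agent.Helper1.MT
open Pool.Agent.Helper66.PV (GoodV)

/-- `TupleSum` (proved in Helper87/MT/Tuple.lean) with
`G i S = γ i S ^ 2 * (ws w S * ∏ p ∈ S, (1 + w p))`, then `Pool.Agent.Helper12.MT.sum_energy` for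
each colour; the product of the factors `∏ p, (1 + w p ^ 2)` is at most `exp (K η) ≤ 2` by `GoodV.sq`
and `GoodV.eta` (`K = 0` separately). See the end of `starMajorant` in Helper12/MT/Star.lean. -/
theorem energyOne : EnergyOne := by
  intro ι κ _ _ _ _ w t γ τ η hG
  have hG0 : ∀ (i : κ) (S : Finset ι), 0 ≤ γ i S ^ 2 * (ws w S * ∏ p ∈ S, (1 + w p)) :=
    fun i S => mul_nonneg (sq_nonneg _) (mul_nonneg
      (Pool.Agent.Helper90.MT.ws_nonneg hG.w_nonneg _)
      (Finset.prod_nonneg fun p _ => by linarith [hG.w_nonneg p]))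
  have h1 : ∑ c : ι → Option κ, ws w (supp c) * (∏ i, γ i (cls c i)) ^ 2 *
      ∏ p ∈ supp c, (1 + w p) =
      ∑ c : ι → Option κ, ∏ i, (γ i (cls c i) ^ 2 *
        (ws w (cls c i) * ∏ p ∈ cls c i, (1 + w p))) := by
    refine Finset.sum_congr rfl fun c _ => ?_
    rw [Pool.Agent.Helper90.MT.ws_supp, Pool.Agent.Helper90.MT.prod_supp (fun p => 1 + w p),
      Finset.prod_mul_distrib, Finset.prod_mul_distrib, Finset.prod_pow]
    ring
  rw [h1]
  have h5 := Pool.Agent.Helper87.MT.tupleSum ι κ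
    (fun i S => γ i S ^ 2 * (ws w S * ∏ p ∈ S, (1 + w p))) hG0
  refine h5.trans ?_
  have h6 : ∀ i : κ, ∑ S : Finset ι, γ i S ^ 2 * (ws w S * ∏ p ∈ S, (1 + w p)) ≤
      (∏ p, (1 + w p ^ 2)) * B1 w (γ i) := fun i =>
    Pool.Agent.Helper12.MT.sum_energy hG.w_nonneg (hG.g_nonneg i) (hG.g_anti i)
  have h8 : ∀ i : κ, 0 ≤ B1 w (γ i) := fun i =>
    Finset.sum_nonneg fun S _ => mul_nonneg (sq_nonneg _)
      (Pool.Agent.Helper90.MT.ws_nonneg hG.w_nonneg _)
  refine (Finset.prod_le_prod (fun i _ => Finset.sum_nonneg fun S _ => hG0 i S)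
    fun i _ => h6 i).trans ?_
  rw [Finset.prod_mul_distrib, Finset.prod_const, Finset.card_univ]
  refine mul_le_mul_of_nonneg_right ?_ (Finset.prod_nonneg fun i _ => h8 i)
  have h9 : ∏ p, (1 + w p ^ 2) ≤ Real.exp η :=
    (Pool.Agent.Helper90.MT.prod_one_add_le (fun p => w p ^ 2) (fun p => sq_nonneg _)).trans
      (Real.exp_le_exp.2 hG.sq)
  have h10 : 0 ≤ ∏ p, (1 + w p ^ 2) := Finset.prod_nonneg fun p _ => by positivity
  refine (pow_le_pow_left₀ h10 h9 _).trans ?_
  rw [← Real.exp_nat_mul]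
  have hη0 : 0 ≤ η := le_trans (Finset.sum_nonneg fun p _ => sq_nonneg _) hG.sq
  have h11 : (Fintype.card κ : ℝ) * η ≤ 1 / 1000 := by
    rcases Nat.eq_zero_or_pos (Fintype.card κ) with hK | hK
    · rw [hK]
      norm_num
    · have hK1 : (1 : ℝ) ≤ Fintype.card κ := by exact_mod_cast hK
      have h12 := hG.eta
      nlinarith [mul_nonneg (sub_nonneg.2 hK1) (mul_nonneg (le_trans zero_le_one hK1) hη0)]
  have h13 := Pool.Agent.Helper90.MT.exp_le_two
    (mul_nonneg (Nat.cast_nonneg (Fintype.card κ)) hη0) (by linarith)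
  linarith

end Pool.Agent.Helper4.PU
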