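import Pool.Agent.Helper4.PL.Many
import Pool.Agent.Helper4.PU.Defs

/-!
# Project PU: the `n` for which some `n + h i` has many prime factors in `(R^ε, R]`, uniformly
-/

set_option autoImplicit false

open Finset Filter

namespace Pool.Agent.Helper4.PU

open Pool.Agent.Helper1.MT
open Pool.Agent.Helper4.PL (Many)

/-- The facts on large `x` that do not depend on `W` and `h`. -/
private theorem many_evU (A : ℝ) : ∀ᶠ x : ℝ in atTop, Real.log x ^ A ≤ x ^ (1 / 10 : ℝ) ∧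
    (3 : ℝ) ≤ x ^ (1 / 5 : ℝ) ∧ (1 : ℝ) ≤ x := by
  have h0 : (0 : ℝ) < 1 / 10 := by norm_num
  have h1 := (isLittleO_log_rpow_rpow_atTop A h0).bound one_pos
  have h2 : Tendsto (fun x : ℝ => x ^ (1 / 5 : ℝ)) atTop atTop :=
    tendsto_rpow_atTop (by norm_num)
  filter_upwards [h1, h2.eventually_ge_atTop 3, eventually_ge_atTop (1 : ℝ)] with x hx hx5 hx1
  refine ⟨?_, hx5, hx1⟩
  have h3 : Real.log x ^ A ≤ ‖Real.log x ^ A‖ := Real.le_norm_self _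
  have h4 : ‖x ^ (1 / 10 : ℝ)‖ = x ^ (1 / 10 : ℝ) :=
    Real.norm_of_nonneg (Real.rpow_nonneg (by linarith) _)
  rw [one_mul, h4] at hx
  exact h3.trans hx

/-- As `Pool.Agent.Helper4.PL.many_sum` (from `many_core`), with `X0` independent of `h`, `W`, `v`:
only the facts `e2` (`W x^(1/5) ≤ x^(23/54)`) and `e4` (`x + h i < x^(6/5)`) depend on them, use
`Real.log x ^ A ≤ x ^ (1/10)` for large `x`. -/
theorem many_sumU (hE : Expand) : ∃ C : ℝ, 0 < C ∧ ∀ (κ : Type) [Fintype κ] [DecidableEq κ]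
    (D0 s : ℕ) (ε A : ℝ), Fintype.card κ ≤ D0 → 0 < ε → ε ≤ 1 → 0 < A →
    ∃ X0 : ℝ, ∀ x : ℝ, X0 ≤ x → ∀ (h : κ → ℕ) (W v : ℕ), 0 < W →
    (∀ p : ℕ, p.Prime → p < D0 → p ∣ W) →
    (∀ i j, i ≠ j → ∀ p : ℕ, p.Prime → (p : ℤ) ∣ (h i : ℤ) - h j → p ∣ W) →
    (W : ℝ) ≤ Real.log x ^ A → (∀ i, (h i : ℝ) ≤ Real.log x ^ A) →
      ∀ (y Y : (PS (lev x) W → Option κ) → ℝ) (E : ℝ), (∀ c, |y c| ≤ Y c) → (∀ c, Y c ≤ 1) →
        (∀ c c', Le c c' → Y c' ≤ Y c) →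
        (∀ c, y c ≠ 0 → T (tp (lev x) W) (supp c) ≤ 3) →
        ∑ c, ws (wp (lev x) W) (supp c) * Y c ^ 2 ≤ E →
        ∀ [DecidablePred (Many h (lev x) W ε s)],
        ∑ n ∈ (NS x W v).filter (Many h (lev x) W ε s),
          (1 / (n : ℝ)) * sw h (lam (wp (lev x) W) y) n ≤
        Fintype.card κ * ((9 * (Real.log (1 / ε) + C)) ^ s / (s.factorial : ℝ)) *
          (Real.log x / (2 * W) * E) + 1 := by
  classical
  obtain ⟨C, hC, hlarge⟩ := Pool.Agent.Helper4.AR.large_sum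
  refine ⟨C, hC, ?_⟩
  intro κ _ _ D0 s ε A hD hε0 hε1 _
  obtain ⟨X1, hX1⟩ := eventually_atTop.1
    (Pool.Agent.Helper4.PL.many_ev (Fintype.card κ) 1 s hε0 (fun _ : κ => 0))
  obtain ⟨X2, hX2⟩ := eventually_atTop.1 (many_evU A)
  refine ⟨max X1 X2, fun x hx h W v hW hsm hdiff hWA hhA y Y E hyY hY1 hanti hT hYE _ => ?_⟩
  obtain ⟨e1, _, e3, _, e5, e6, e7, e8⟩ := hX1 x ((le_max_left _ _).trans hx)
  obtain ⟨a1, a2, a3⟩ := hX2 x ((le_max_right _ _).trans hx)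
  have hx0 : (0 : ℝ) < x := by linarith
  have hRx : (lev x : ℝ) ≤ x ^ (1 / 81 : ℝ) := Nat.floor_le (by positivity)
  have hRr : (3 : ℝ) ≤ lev x := by exact_mod_cast e7
  have hR0 : (0 : ℝ) < lev x := by linarith
  have hlogR : 0 < Real.log (lev x) := Real.log_pos (by linarith)
  have e2 : (W : ℝ) * x ^ (1 / 5 : ℝ) ≤ x ^ (23 / 54 : ℝ) := by
    calc (W : ℝ) * x ^ (1 / 5 : ℝ) ≤ x ^ (1 / 10 : ℝ) * x ^ (1 / 5 : ℝ) :=
          mul_le_mul_of_nonneg_right (hWA.trans a1) (by positivity)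
      _ = x ^ (3 / 10 : ℝ) := by rw [← Real.rpow_add hx0]; norm_num
      _ ≤ x ^ (23 / 54 : ℝ) := Real.rpow_le_rpow_of_exponent_le a3 (by norm_num)
  have e4 : ∀ i, x + h i < (x ^ (1 / 5 : ℝ)) ^ 6 := by
    intro i
    have h2 : (x ^ (1 / 5 : ℝ)) ^ 6 = x * x ^ (1 / 5 : ℝ) := by
      have h3 : (x ^ (1 / 5 : ℝ)) ^ 5 = x := by
        rw [← Real.rpow_natCast, ← Real.rpow_mul hx0.le]
        norm_num
      rw [pow_succ, h3]
    have h4 : (h i : ℝ) ≤ x := by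
      calc (h i : ℝ) ≤ x ^ (1 / 10 : ℝ) := (hhA i).trans a1
        _ ≤ x ^ (1 : ℝ) := Real.rpow_le_rpow_of_exponent_le a3 (by norm_num)
        _ = x := Real.rpow_one x
    rw [h2]
    nlinarith
  refine Pool.Agent.Helper4.PL.many_core hE hD hW hsm hdiff e8 e7 hRx ?_ e1 e2 e3 e4 e5 ?_ y Y E
    hyY hY1 hanti hT hYE
  · have : 0 ≤ Real.log (1 / ε) := Real.log_nonneg (by
      rw [le_div_iff₀ hε0]
      linarith)
    linarith
  · have h1 := hlarge ((lev x : ℝ) ^ ε) (lev x) e6 (by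
      calc (lev x : ℝ) ^ ε ≤ (lev x : ℝ) ^ (1 : ℝ) :=
            Real.rpow_le_rpow_of_exponent_le (by linarith) hε1
        _ = lev x := Real.rpow_one _) s
        (Pool.Agent.Helper4.PL.sets (lev x) W ε (x ^ (1 / 5 : ℝ)) s) (by
      intro B hB
      obtain ⟨hB1, hB2, hB3, hB4⟩ := Pool.Agent.Helper4.PL.mem_sets.1 hB
      refine ⟨hB2, fun p hp => ⟨(Pool.Agent.Helper66.PAP.mem_PS.1 (hB1 hp)).2.1, hB3 p hp, ?_⟩⟩
      exact_mod_cast (Pool.Agent.Helper66.PAP.mem_PS.1 (hB1 hp)).1)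
    have h2 : Real.log (lev x) / Real.log ((lev x : ℝ) ^ ε) = 1 / ε := by
      rw [Real.log_rpow hR0]
      field_simp
    rw [h2] at h1
    exact h1

end Pool.Agent.Helper4.PU
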