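import Pool.Agent.Helper4.PL.Square
import Pool.Agent.Helper4.PU.Defs

/-!
# Project PU: the `n` for which some `n + h i` is divisible by the square of a prime, uniformly
-/

set_option autoImplicit false

open Finset Filter

namespace Pool.Agent.Helper4.PU

open Pool.Agent.Helper1.MT
open Pool.Agent.Helper4.PL (Sqr)

/-- As `Pool.Agent.Helper4.PL.square_sum` (from `square_harm` and `square_ev`), with `WeightPS` in
place of `WeightLe` and `X0` independent of `h`, `W`, `v`. -/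
theorem square_sumU (hWt : WeightPS) (κ : Type) [Fintype κ] [DecidableEq κ] (r : ℕ) {ε : ℝ}
    (hε0 : 0 < ε) : ∃ X0 : ℝ, ∀ x : ℝ, X0 ≤ x → ∀ (h : κ → ℕ) (W v : ℕ)
      (y : (PS (lev x) W → Option κ) → ℝ), (∀ c, |y c| ≤ 1) →
        ∀ [DecidablePred (fun n => (∀ i, ((PS (lev x) W).filter (fun p => p ∣ n + h i)).card ≤ r) ∧
          Sqr h (lev x) W ε n)],
        ∑ n ∈ (NS x W v).filter (fun n =>
            (∀ i, ((PS (lev x) W).filter (fun p => p ∣ n + h i)).card ≤ r) ∧
            Sqr h (lev x) W ε n),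
          (1 / (n : ℝ)) * sw h (lam (wp (lev x) W) y) n ≤ 1 := by
  classical
  obtain ⟨Cw, hCw, hWt⟩ := hWt
  obtain ⟨C, hC, hharm⟩ := Pool.Agent.Helper4.PL.square_harm
  have hM : (0 : ℝ) < ((2 : ℝ) ^ (Fintype.card κ * r) * Cw ^ Fintype.card κ) ^ 2 *
      (Fintype.card κ + 1) := by positivity
  obtain ⟨X0, hX0⟩ := eventually_atTop.1
    ((Pool.Agent.Helper4.PL.square_ev hC hε0 hM (Fintype.card κ)).and
    ((lev_tendsto.eventually_ge_atTop 3).and (eventually_ge_atTop (9 : ℝ))))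
  refine ⟨X0, fun x hx h W v y hy _ => ?_⟩
  obtain ⟨e1, e2, e3⟩ := hX0 x hx
  have hx0 : (0 : ℝ) < x := by linarith
  have hRx : (lev x : ℝ) ≤ x ^ (1 / 81 : ℝ) := Nat.floor_le (by positivity)
  have hRr : (3 : ℝ) ≤ lev x := by exact_mod_cast e2
  have hlogR : 0 < Real.log (lev x) := Real.log_pos (by linarith)
  have h1 := hharm κ h (lev x) W v ε x e2 hRx e3
  have hpt : ∀ n ∈ (NS x W v).filter (fun n =>
      (∀ i, ((PS (lev x) W).filter (fun p => p ∣ n + h i)).card ≤ r) ∧
      Sqr h (lev x) W ε n), (1 / (n : ℝ)) * sw h (lam (wp (lev x) W) y) n ≤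
      ((2 : ℝ) ^ (Fintype.card κ * r) * Cw ^ Fintype.card κ) ^ 2 *
        Real.log (lev x) ^ (2 * Fintype.card κ) * (1 / (n : ℝ)) := by
    intro n hn
    rw [mem_filter] at hn
    have hn0 : 0 < n := by
      have h2 := hn.1
      unfold NS at h2
      rw [mem_filter, mem_Ioc] at h2
      omega
    have h3 := hWt κ (lev x) W h y n r e2 hy hn0 hn.2.1
    rw [mul_comm]
    apply mul_le_mul_of_nonneg_right _ (by positivity)
    refine h3.trans (le_of_eq ?_)
    ring
  refine (Finset.sum_le_sum hpt).trans ?_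
  rw [← Finset.mul_sum]
  have h2 : ∑ n ∈ (NS x W v).filter (fun n =>
      (∀ i, ((PS (lev x) W).filter (fun p => p ∣ n + h i)).card ≤ r) ∧
      Sqr h (lev x) W ε n), (1 : ℝ) / n ≤
      ∑ n ∈ (NS x W v).filter (Sqr h (lev x) W ε), (1 : ℝ) / n := by
    apply Finset.sum_le_sum_of_subset_of_nonneg
    · intro n hn
      rw [mem_filter] at hn ⊢
      exact ⟨hn.1, hn.2.2⟩
    · intro n _ _
      positivity
  have h3 := h2.trans h1
  set Z : ℝ := Real.log x * (Real.log (Real.log (lev x)) + C) / (lev x : ℝ) ^ ε +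
        8 * lev x / x ^ (1 / 2 : ℝ) with hZ
  have hcK : (0 : ℝ) ≤ Fintype.card κ := Nat.cast_nonneg _
  by_cases hZ0 : 0 ≤ Z
  · calc ((2 : ℝ) ^ (Fintype.card κ * r) * Cw ^ Fintype.card κ) ^ 2 *
        Real.log (lev x) ^ (2 * Fintype.card κ) *
        ∑ n ∈ (NS x W v).filter (fun n =>
          (∀ i, ((PS (lev x) W).filter (fun p => p ∣ n + h i)).card ≤ r) ∧
          Sqr h (lev x) W ε n), (1 : ℝ) / n
        ≤ ((2 : ℝ) ^ (Fintype.card κ * r) * Cw ^ Fintype.card κ) ^ 2 *
          Real.log (lev x) ^ (2 * Fintype.card κ) * ((Fintype.card κ + 1) * Z) := by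
          apply mul_le_mul_of_nonneg_left _ (by positivity)
          refine h3.trans ?_
          apply mul_le_mul_of_nonneg_right _ hZ0
          linarith
      _ = ((2 : ℝ) ^ (Fintype.card κ * r) * Cw ^ Fintype.card κ) ^ 2 *
            (Fintype.card κ + 1) * Real.log (lev x) ^ (2 * Fintype.card κ) * Z := by ring
      _ ≤ 1 := e1
  · push Not at hZ0
    have h4 : ∑ n ∈ (NS x W v).filter (fun n =>
        (∀ i, ((PS (lev x) W).filter (fun p => p ∣ n + h i)).card ≤ r) ∧
        Sqr h (lev x) W ε n), (1 : ℝ) / n ≤ 0 :=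
      h3.trans (mul_nonpos_of_nonneg_of_nonpos hcK hZ0.le)
    refine le_trans ?_ zero_le_one
    exact mul_nonpos_of_nonneg_of_nonpos (by positivity) h4

end Pool.Agent.Helper4.PU
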