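import Pool.Agent.Helper4.PL.Rare
import Pool.Agent.Helper4.PU.ManyU
import Pool.Agent.Helper4.PU.SquareU

/-!
# Project PU: the `n` for which some `n + h i` has many prime factors, uniformly
-/

set_option autoImplicit false

open Finset Filter

namespace Pool.Agent.Helper4.PU

open Pool.Agent.Helper1.MT
open Pool.Agent.Helper66.PAP (mem_PS)
open Pool.Agent.Helper66.PV (oW RareAt SetN)
open Pool.Agent.Helper4.PL (Many Sqr lps oW_le)

theorem card_PS_dvd_le {R W m s : ℕ} {ε : ℝ}
    (hbig : ∀ q : PS R W, (q : ℕ) ∣ m → (R : ℝ) ^ ε < ((q : ℕ) : ℝ))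
    (hfew : (lps R W ε m).card < 6 * s) :
    ((PS R W).filter (fun p => p ∣ m)).card ≤ 6 * s := by
  classical
  have h1 : (PS R W).filter (fun p => p ∣ m) ⊆ lps R W ε m := by
    intro p hp
    rw [mem_filter] at hp
    unfold lps
    rw [mem_filter]
    exact ⟨hp.1, hp.2, hbig ⟨p, hp.1⟩ hp.2⟩
  have h2 := Finset.card_le_card h1
  omega

theorem rareSumU (hWt : WeightPS) : RareSumU := by
  classical
  obtain ⟨C, hC, hmany⟩ := many_sumU Pool.Agent.Helper46.MT.expand
  refine ⟨C, hC, ?_⟩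
  intro κ _ _ D0 s ε A hD hε0 hε1 hA
  have hD' : Fintype.card κ ≤ D0 :=
    ((Nat.le_add_right _ 2).trans (Nat.le_self_pow (by norm_num) _)).trans hD
  obtain ⟨X1, hX1⟩ := hmany κ D0 s ε A hD' hε0 hε1 hA
  obtain ⟨X2, hX2⟩ := square_sumU hWt κ (6 * s) hε0
  have hev : ∀ᶠ x : ℝ in atTop, x + Real.log x ^ A ≤ x ^ 2 ∧
      Real.log x ≤ 82 * Real.log (lev x) ∧ 3 ≤ lev x ∧ 9 ≤ x := by
    refine Eventually.and ?_ (lev_log.and ((lev_tendsto.eventually_ge_atTop 3).and
      (eventually_ge_atTop (9 : ℝ))))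
    have h2 : (fun t : ℝ => Real.log t ^ A) =o[atTop] fun t : ℝ => t ^ (1 : ℝ) :=
      isLittleO_log_rpow_rpow_atTop A one_pos
    filter_upwards [h2.bound one_pos, eventually_ge_atTop (2 : ℝ)] with x hx hx2
    have h3 : 0 ≤ Real.log x := Real.log_nonneg (by linarith)
    rw [Real.norm_eq_abs, Real.norm_eq_abs, abs_of_nonneg (by positivity),
      abs_of_nonneg (by positivity), one_mul, Real.rpow_one] at hx
    nlinarith
  obtain ⟨X3, hX3⟩ := eventually_atTop.1 hev
  refine ⟨max X1 (max X2 X3), fun x hx h W v hS hWA hhA y Y E hyY hY1 hanti hT hYE _ => ?_⟩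
  have hx1 : X1 ≤ x := (le_max_left _ _).trans hx
  have hx2 : X2 ≤ x := (le_max_left _ _).trans ((le_max_right _ _).trans hx)
  have hx3 : X3 ≤ x := (le_max_right _ _).trans ((le_max_right _ _).trans hx)
  obtain ⟨e1', e2, e3, e4⟩ := hX3 x hx3
  have e1 : ∀ i, x + h i ≤ x ^ 2 := fun i => by linarith [hhA i]
  have hx0 : (0 : ℝ) < x := by linarith
  have hRr : (3 : ℝ) ≤ lev x := by exact_mod_cast e3
  have hR0 : (0 : ℝ) < lev x := by linarith
  have hlogR : 0 < Real.log (lev x) := Real.log_pos (by linarith)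
  have h1 := hX1 x hx1 h W v hS.W_pos hS.small hS.diff hWA hhA y Y E hyY hY1 hanti
    (fun c hc => (hT c hc).trans (by norm_num)) hYE
  have h2 := hX2 x hx2 h W v y (fun c => (hyY c).trans (hY1 c))
  have hu : ∀ n : ℕ, 0 ≤ (1 / (n : ℝ)) * sw h (lam (wp (lev x) W) y) n := fun n => by
    unfold sw
    positivity
  have hsub : (NS x W v).filter (RareAt h W s ε x) ⊆
      (NS x W v).filter (Many h (lev x) W ε s) ∪
      (NS x W v).filter (fun n => (∀ i, ((PS (lev x) W).filter (fun p => p ∣ n + h i)).card ≤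
        6 * s) ∧ Sqr h (lev x) W ε n) := by
    intro n hn
    rw [mem_filter] at hn
    obtain ⟨hnNS, hbad, i0, hi0⟩ := hn
    rw [Finset.mem_union, mem_filter, mem_filter]
    by_cases hM : Many h (lev x) W ε s n
    · exact Or.inl ⟨hnNS, hM⟩
    · refine Or.inr ⟨hnNS, ?_⟩
      have hnx : (n : ℝ) ≤ x ∧ 0 < n := by
        unfold NS at hnNS
        rw [mem_filter, mem_Ioc] at hnNS
        exact ⟨(Nat.le_floor_iff hx0.le).1 hnNS.1.2, by omega⟩
      have hne : ∀ i, n + h i ≠ 0 := fun i => by omega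
      have hfew : ∀ i, (lps (lev x) W ε (n + h i)).card < 6 * s := by
        intro i
        by_contra hcon
        push Not at hcon
        exact hM ⟨i, hcon⟩
      have hmR : ∀ i, n + h i ≤ lev x ^ 164 := by
        intro i
        have h3 : x ≤ (lev x : ℝ) ^ (82 : ℝ) := by
          rw [← Real.log_le_log_iff hx0 (Real.rpow_pos_of_pos hR0 _), Real.log_rpow hR0]
          exact e2
        have h4 : ((n + h i : ℕ) : ℝ) ≤ ((lev x ^ 164 : ℕ) : ℝ) := by
          push_cast
          calc (n : ℝ) + h i ≤ x + h i := by linarith [hnx.1]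
            _ ≤ x ^ 2 := e1 i
            _ ≤ ((lev x : ℝ) ^ (82 : ℝ)) ^ 2 := pow_le_pow_left₀ hx0.le h3 2
            _ = (lev x : ℝ) ^ 164 := by
              rw [← Real.rpow_natCast, ← Real.rpow_mul hR0.le]
              norm_num
        exact_mod_cast h4
      have htp : ∀ i, ∀ q : PS (lev x) W, (q : ℕ) ∣ n + h i → ε < tp (lev x) W q := by
        intro i q hq
        by_contra hcon
        push Not at hcon
        exact hbad ⟨q, hcon, i, hq⟩
      have hbig : ∀ i, ∀ q : PS (lev x) W, (q : ℕ) ∣ n + h i →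
          (lev x : ℝ) ^ ε < ((q : ℕ) : ℝ) := by
        intro i q hq
        have h4 := htp i q hq
        unfold tp at h4
        rw [lt_div_iff₀ hlogR, ← Real.log_rpow hR0] at h4
        have hp0 : (0 : ℝ) < ((q : ℕ) : ℝ) := by exact_mod_cast (PS_prime q).pos
        exact (Real.log_lt_log_iff (Real.rpow_pos_of_pos hR0 _) hp0).1 h4
      refine ⟨fun i => card_PS_dvd_le (hbig i) (hfew i), ?_⟩
      by_contra hcon
      have h5 := oW_le (s := s) (by omega) (hne i0) (hmR i0) (hbig i0) (hfew i0) (by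
        intro q hq hq2
        exact hcon ⟨i0, q, htp i0 q hq, hq2⟩)
      omega
  calc ∑ n ∈ (NS x W v).filter (RareAt h W s ε x),
        (1 / (n : ℝ)) * sw h (lam (wp (lev x) W) y) n
      ≤ ∑ n ∈ (NS x W v).filter (Many h (lev x) W ε s) ∪
          (NS x W v).filter (fun n => (∀ i, ((PS (lev x) W).filter (fun p => p ∣ n + h i)).card ≤
            6 * s) ∧ Sqr h (lev x) W ε n),
        (1 / (n : ℝ)) * sw h (lam (wp (lev x) W) y) n :=
        Finset.sum_le_sum_of_subset_of_nonneg hsub fun n _ _ => hu n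
    _ ≤ ∑ n ∈ (NS x W v).filter (Many h (lev x) W ε s),
          (1 / (n : ℝ)) * sw h (lam (wp (lev x) W) y) n +
        ∑ n ∈ (NS x W v).filter (fun n => (∀ i, ((PS (lev x) W).filter
            (fun p => p ∣ n + h i)).card ≤ 6 * s) ∧ Sqr h (lev x) W ε n),
          (1 / (n : ℝ)) * sw h (lam (wp (lev x) W) y) n := by
        rw [← Finset.sum_union_inter]
        have := Finset.sum_nonneg (s := (NS x W v).filter (Many h (lev x) W ε s) ∩
          (NS x W v).filter (fun n => (∀ i, ((PS (lev x) W).filter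
            (fun p => p ∣ n + h i)).card ≤ 6 * s) ∧ Sqr h (lev x) W ε n)) (fun n _ => hu n)
        linarith
    _ ≤ _ := by linarith

end Pool.Agent.Helper4.PU
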