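import Pool.Agent.Helper4.PU.Defs

/-!
# Project PU, module 8: a bound for `W / φ(W)`
-/

set_option autoImplicit false

open Finset

namespace Pool.Agent.Helper4.PU

private theorem prod_le_card (S : Finset ℕ) (hS : ∀ p ∈ S, 2 ≤ p) :
    ∏ p ∈ S, ((p : ℝ) / ((p : ℝ) - 1)) ≤ S.card + 1 := by
  induction S using Finset.induction_on_max with
  | empty => simp
  | insert a s hlt ih =>
    have ha : a ∉ s := fun h => lt_irrefl a (hlt a h)
    rw [prod_insert ha, card_insert_of_notMem ha]
    have h1 := ih fun p hp => hS p (mem_insert_of_mem hp)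
    have h2 : s.card + 2 ≤ a := by
      have h3 : s ⊆ Finset.Ico 2 a := fun p hp =>
        Finset.mem_Ico.2 ⟨hS p (mem_insert_of_mem hp), hlt p hp⟩
      have h4 := card_le_card h3
      rw [Nat.card_Ico] at h4
      have h5 := hS a (mem_insert_self a s)
      omega
    have h2' : (s.card : ℝ) + 2 ≤ a := by exact_mod_cast h2
    have hc : (0 : ℝ) ≤ s.card := Nat.cast_nonneg _
    have h6 : (a : ℝ) / ((a : ℝ) - 1) ≤ (s.card + 2) / (s.card + 1) := by
      rw [div_le_div_iff₀ (by linarith) (by linarith)]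
      nlinarith
    have h7 : 0 ≤ ∏ p ∈ s, ((p : ℝ) / ((p : ℝ) - 1)) := by
      refine prod_nonneg fun p hp => ?_
      have h8 : (2 : ℝ) ≤ p := by exact_mod_cast hS p (mem_insert_of_mem hp)
      exact div_nonneg (by linarith) (by linarith)
    calc (a : ℝ) / ((a : ℝ) - 1) * ∏ p ∈ s, ((p : ℝ) / ((p : ℝ) - 1))
        ≤ (s.card + 2) / (s.card + 1) * (s.card + 1) :=
          mul_le_mul h6 h1 h7 (div_nonneg (by linarith) (by linarith))
      _ = ((s.card + 1 : ℕ) : ℝ) + 1 := by
          rw [div_mul_cancel₀ _ (by linarith : (s.card : ℝ) + 1 ≠ 0)]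
          push_cast
          ring

/-- `W / φ(W) = ∏_{p ∣ W} p / (p - 1) ≤ ω(W) + 1` (for a finite set `S` of integers `≥ 2`,
`∏_{p ∈ S} p / (p - 1) ≤ |S| + 1`: induction on the number of elements, removing the largest one,
which is at least `|S| + 1`), and `2^ω(W) ≤ W`. -/
theorem rhoBound : RhoBound := by
  intro W hW
  have hp : ∀ p ∈ W.primeFactors, 2 ≤ p := fun p hp => (Nat.prime_of_mem_primeFactors hp).two_le
  have h1 := prod_le_card W.primeFactors hp
  have h2 : (W : ℝ) / W.totient = ∏ p ∈ W.primeFactors, ((p : ℝ) / ((p : ℝ) - 1)) := by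
    have h3 := Nat.totient_mul_prod_primeFactors W
    have h4 : ((W.totient * ∏ p ∈ W.primeFactors, p : ℕ) : ℝ) =
        ((W * ∏ p ∈ W.primeFactors, (p - 1) : ℕ) : ℝ) := by rw [h3]
    push_cast at h4
    have h5 : ∏ p ∈ W.primeFactors, (((p - 1 : ℕ)) : ℝ) = ∏ p ∈ W.primeFactors, ((p : ℝ) - 1) := by
      refine prod_congr rfl fun p hp' => ?_
      rw [Nat.cast_sub (by have := hp p hp'; omega), Nat.cast_one]
    rw [h5] at h4
    have h6 : 0 < ∏ p ∈ W.primeFactors, ((p : ℝ) - 1) := by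
      refine prod_pos fun p hp' => ?_
      have : (2 : ℝ) ≤ p := by exact_mod_cast hp p hp'
      linarith
    have h7 : (0 : ℝ) < W.totient := by exact_mod_cast Nat.totient_pos.2 hW
    rw [prod_div_distrib, div_eq_div_iff h7.ne' h6.ne', ← h4, mul_comm]
  have h8 : (W.primeFactors.card : ℝ) ≤ Real.log W / Real.log 2 := by
    rw [le_div_iff₀ (Real.log_pos (by norm_num)), ← Real.log_pow]
    refine Real.log_le_log (by positivity) ?_
    have h9 : 2 ^ W.primeFactors.card ≤ ∏ p ∈ W.primeFactors, p :=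
      Finset.pow_card_le_prod _ _ _ hp
    have h10 : ∏ p ∈ W.primeFactors, p ≤ W := Nat.le_of_dvd hW (Nat.prod_primeFactors_dvd W)
    exact_mod_cast h9.trans h10
  rw [h2]
  linarith

end Pool.Agent.Helper4.PU
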