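import Pool.Agent.Helper4.PU.Legendre
import Pool.Agent.Helper4.PU.Rho
import Pool.Agent.Helper4.AR.Avg

/-!
# Project PU, module 6: the average of the singular factors
-/

set_option autoImplicit false

open Finset

namespace Pool.Agent.Helper4.PU

/-- The singular factor of one integer. -/
private noncomputable def gf (d m : ℕ) : ℝ :=
  ∏ p ∈ m.primeFactors.filter (fun p => ¬ p ∣ d), (1 + 1 / (p : ℝ))

private theorem one_le_prodf (s : Finset ℕ) : (1 : ℝ) ≤ ∏ p ∈ s, (1 + 1 / (p : ℝ)) := by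
  calc (1 : ℝ) = ∏ p ∈ s, (1 : ℝ) := by simp
    _ ≤ _ := Finset.prod_le_prod (fun _ _ => zero_le_one) (fun p _ => by
      have : (0 : ℝ) ≤ 1 / p := by positivity
      linarith)

private theorem one_le_gf (d m : ℕ) : 1 ≤ gf d m := one_le_prodf _

private theorem gf_mul_le (d : ℕ) {a b : ℕ} (ha : a ≠ 0) (hb : b ≠ 0) :
    gf d (a * b) ≤ gf d a * gf d b := by
  unfold gf
  rw [Nat.primeFactors_mul ha hb, Finset.filter_union, ← Finset.prod_union_inter]
  exact le_mul_of_one_le_right (zero_le_one.trans (one_le_prodf _)) (one_le_prodf _)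

private theorem gf_prod_le {ι : Type} [DecidableEq ι] (d : ℕ) (s : Finset ι) (x : ι → ℕ)
    (hx : ∀ i ∈ s, x i ≠ 0) : gf d (∏ i ∈ s, x i) ≤ ∏ i ∈ s, gf d (x i) := by
  induction s using Finset.induction_on with
  | empty => simp [gf]
  | insert a s ha ih =>
    rw [Finset.prod_insert ha, Finset.prod_insert ha]
    have h1 : ∀ i ∈ s, x i ≠ 0 := fun i hi => hx i (Finset.mem_insert_of_mem hi)
    have h2 : ∏ i ∈ s, x i ≠ 0 := Finset.prod_ne_zero_iff.mpr h1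
    refine (gf_mul_le d (hx a (Finset.mem_insert_self a s)) h2).trans ?_
    exact mul_le_mul_of_nonneg_left (ih h1) (zero_le_one.trans (one_le_gf d _))

private theorem prod_le_sum_pow {ι : Type} (k : ℕ) (s : Finset ι) (hs : s.Nonempty)
    (hc : s.card ≤ k) (u : ι → ℝ) (hu : ∀ i ∈ s, 1 ≤ u i) : ∏ i ∈ s, u i ≤ ∑ i ∈ s, u i ^ k := by
  classical
  obtain ⟨m, hm, hmax⟩ := Finset.exists_max_image s u hs
  calc ∏ i ∈ s, u i ≤ ∏ i ∈ s, u m := by
        apply Finset.prod_le_prod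
        · intro i hi; linarith [hu i hi]
        · intro i hi; exact hmax i hi
    _ = u m ^ s.card := by rw [Finset.prod_const]
    _ ≤ u m ^ k := pow_le_pow_right₀ (hu m hm) hc
    _ ≤ ∑ i ∈ s, u i ^ k := by
        apply Finset.single_le_sum (f := fun i => u i ^ k) _ hm
        intro i hi
        have := hu i hi
        positivity

private theorem one_add_pow_le (x : ℝ) (hx : 0 ≤ x) (hx1 : x ≤ 1) (k : ℕ) :
    (1 + x) ^ k ≤ 1 + (2 ^ k - 1) * x := by
  induction k with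
  | zero => simp
  | succ k ih =>
    have h1 : (1 : ℝ) ≤ 2 ^ k := one_le_pow₀ (by norm_num)
    have h2 : x * x ≤ x := by nlinarith
    rw [pow_succ]
    calc (1 + x) ^ k * (1 + x) ≤ (1 + (2 ^ k - 1) * x) * (1 + x) :=
          mul_le_mul_of_nonneg_right ih (by linarith)
      _ ≤ 1 + (2 ^ (k + 1) - 1) * x := by
          rw [pow_succ]
          nlinarith [mul_le_mul_of_nonneg_left h2 (by linarith : (0 : ℝ) ≤ 2 ^ k - 1)]

/-- The weights. -/
private noncomputable def wt (k e : ℕ) : ℝ := 2 ^ (k * e.primeFactors.card) / (e : ℝ)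

private theorem wt_nonneg (k e : ℕ) : 0 ≤ wt k e := by
  unfold wt
  positivity

private theorem gf_pow_le (k d m N : ℕ) (hm : m ≠ 0) (hmN : m ≤ N) :
    gf d m ^ k ≤ ∑ e ∈ (Finset.Icc 1 N).filter (fun e => Nat.Coprime e d),
      if e ∣ m then wt k e else 0 := by
  classical
  set F := m.primeFactors.filter (fun p => ¬ p ∣ d) with hF
  have hFp : ∀ A ∈ F.powerset, ∀ p ∈ A, p.Prime := by
    intro A hA p hp
    have h1 := Finset.mem_powerset.mp hA hp
    rw [hF, Finset.mem_filter] at h1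
    exact Nat.prime_of_mem_primeFactors h1.1
  have hpf : ∀ A ∈ F.powerset, (∏ p ∈ A, p).primeFactors = A :=
    fun A hA => Nat.primeFactors_prod (hFp A hA)
  have hinj : Set.InjOn (fun A : Finset ℕ => ∏ p ∈ A, p) (F.powerset : Set (Finset ℕ)) := by
    intro A hA B hB hAB
    rw [Finset.mem_coe] at hA hB
    simp only at hAB
    rw [← hpf A hA, ← hpf B hB, hAB]
  calc gf d m ^ k = ∏ p ∈ F, (1 + 1 / (p : ℝ)) ^ k := by
        unfold gf
        rw [Finset.prod_pow]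
    _ ≤ ∏ p ∈ F, (1 + 2 ^ k / (p : ℝ)) := by
        apply Finset.prod_le_prod
        · intro p _; positivity
        · intro p hp
          rw [hF, Finset.mem_filter] at hp
          have hp1 : (1 : ℝ) ≤ p := by
            exact_mod_cast (Nat.prime_of_mem_primeFactors hp.1).one_lt.le
          have h3 : 1 / (p : ℝ) ≤ 1 := by
            rw [div_le_one (by linarith)]
            exact hp1
          have h0 : 0 ≤ 1 / (p : ℝ) := by positivity
          refine (one_add_pow_le _ h0 h3 k).trans ?_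
          have h4 : (2 : ℝ) ^ k / (p : ℝ) = 2 ^ k * (1 / (p : ℝ)) := by ring
          rw [h4]
          linarith
    _ = ∑ A ∈ F.powerset, ∏ p ∈ A, (2 ^ k / (p : ℝ)) := Finset.prod_one_add F
    _ = ∑ A ∈ F.powerset, wt k (∏ p ∈ A, p) := by
        apply Finset.sum_congr rfl
        intro A hA
        unfold wt
        rw [hpf A hA, Finset.prod_div_distrib, Finset.prod_const, ← pow_mul, Nat.cast_prod]
    _ = ∑ e ∈ F.powerset.image (fun A => ∏ p ∈ A, p), wt k e := by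
        rw [Finset.sum_image hinj]
    _ = ∑ e ∈ F.powerset.image (fun A => ∏ p ∈ A, p), if e ∣ m then wt k e else 0 := by
        apply Finset.sum_congr rfl
        intro e he
        obtain ⟨A, hA, rfl⟩ := Finset.mem_image.mp he
        rw [if_pos]
        have h5 : A ⊆ m.primeFactors :=
          (Finset.mem_powerset.mp hA).trans (Finset.filter_subset _ _)
        exact (Finset.prod_dvd_prod_of_subset _ _ _ h5).trans (Nat.prod_primeFactors_dvd m)
    _ ≤ _ := by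
        apply Finset.sum_le_sum_of_subset_of_nonneg
        · intro e he
          obtain ⟨A, hA, rfl⟩ := Finset.mem_image.mp he
          have h5 : A ⊆ m.primeFactors :=
            (Finset.mem_powerset.mp hA).trans (Finset.filter_subset _ _)
          have h6 : ∏ p ∈ A, p ∣ m :=
            (Finset.prod_dvd_prod_of_subset _ _ _ h5).trans (Nat.prod_primeFactors_dvd m)
          have h7 : 0 < ∏ p ∈ A, p := Finset.prod_pos fun p hp => (hFp A hA p hp).pos
          rw [Finset.mem_filter, Finset.mem_Icc]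
          refine ⟨⟨h7, (Nat.le_of_dvd (Nat.pos_of_ne_zero hm) h6).trans hmN⟩, ?_⟩
          refine Nat.Coprime.prod_left fun p hp => ?_
          have h8 := Finset.mem_powerset.mp hA hp
          rw [hF, Finset.mem_filter] at h8
          exact (Nat.Prime.coprime_iff_not_dvd (hFp A hA p hp)).mpr h8.2
        · intro e _ _
          split_ifs
          · exact wt_nonneg k e
          · exact le_refl _

private noncomputable def Cst (k : ℕ) : ℝ := (2 ^ k) ^ (2 ^ (8 * k))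

private theorem Cst_pos (k : ℕ) : 0 < Cst k := by
  unfold Cst
  positivity

/-- `2^(k ω(e)) ≤ C e^(1/8)`. -/
private theorem two_pow_le (k e : ℕ) (he : 0 < e) :
    (2 : ℝ) ^ (k * e.primeFactors.card) ≤ Cst k * (e : ℝ) ^ (1 / 8 : ℝ) := by
  classical
  unfold Cst
  have h1 : (1 : ℝ) ≤ 2 ^ k := one_le_pow₀ (by norm_num)
  set S := e.primeFactors.filter (fun p => p < 2 ^ (8 * k)) with hS
  set L := e.primeFactors.filter (fun p => ¬ p < 2 ^ (8 * k)) with hL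
  have hc : e.primeFactors.card = S.card + L.card :=
    (Finset.card_filter_add_card_filter_not (s := e.primeFactors)
      (fun p => p < 2 ^ (8 * k))).symm
  have hSc : S.card ≤ 2 ^ (8 * k) := by
    calc S.card ≤ (range (2 ^ (8 * k))).card := by
          apply Finset.card_le_card
          intro p hp
          rw [hS, Finset.mem_filter] at hp
          exact Finset.mem_range.mpr hp.2
      _ = _ := Finset.card_range _
  have hLc : ((2 : ℝ) ^ k) ^ L.card ≤ (e : ℝ) ^ (1 / 8 : ℝ) := by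
    calc ((2 : ℝ) ^ k) ^ L.card = ∏ p ∈ L, (2 : ℝ) ^ k := by rw [Finset.prod_const]
      _ ≤ ∏ p ∈ L, (p : ℝ) ^ (1 / 8 : ℝ) := by
          apply Finset.prod_le_prod
          · intro p _; positivity
          · intro p hp
            rw [hL, Finset.mem_filter, not_lt] at hp
            have h2 : ((2 : ℝ) ^ (8 * k)) ≤ (p : ℝ) := by exact_mod_cast hp.2
            calc (2 : ℝ) ^ k = (((2 : ℝ) ^ k) ^ (8 : ℕ)) ^ (1 / 8 : ℝ) := by
                  rw [← Real.rpow_natCast (_ ^ k) 8, ← Real.rpow_mul (by positivity)]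
                  norm_num
              _ ≤ (p : ℝ) ^ (1 / 8 : ℝ) := by
                  apply Real.rpow_le_rpow (by positivity) _ (by norm_num)
                  rw [← pow_mul, mul_comm k 8]
                  exact h2
      _ = (∏ p ∈ L, (p : ℝ)) ^ (1 / 8 : ℝ) :=
          Real.finsetProd_rpow L _ (fun p _ => Nat.cast_nonneg p) _
      _ ≤ (e : ℝ) ^ (1 / 8 : ℝ) := by
          apply Real.rpow_le_rpow (Finset.prod_nonneg fun p _ => Nat.cast_nonneg p) _ (by norm_num)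
          have h3 : ∏ p ∈ L, p ∣ e :=
            (Finset.prod_dvd_prod_of_subset _ _ _ (Finset.filter_subset _ _)).trans
              (Nat.prod_primeFactors_dvd e)
          have h4 : ((∏ p ∈ L, p : ℕ) : ℝ) ≤ (e : ℝ) := by exact_mod_cast Nat.le_of_dvd he h3
          rwa [Nat.cast_prod] at h4
  rw [pow_mul, hc, pow_add]
  exact mul_le_mul (pow_le_pow_right₀ h1 hSc) hLc (by positivity) (by positivity)

private theorem exists_two_pow (k : ℕ) : ∃ C : ℝ, 0 < C ∧ ∀ e : ℕ, 0 < e →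
    (2 : ℝ) ^ (k * e.primeFactors.card) ≤ C * (e : ℝ) ^ (1 / 8 : ℝ) :=
  ⟨Cst k, Cst_pos k, two_pow_le k⟩

private theorem count_le (P : Finset ℕ) (e a v N : ℕ) (he : 0 < e)
    (hP : ∀ p ∈ P, p.Prime ∧ ¬ p ∣ e) (S : Finset ℕ)
    (hS : ∀ t ∈ S, t < N ∧ t ≡ a [MOD e] ∧ ∀ p ∈ P, ¬ p ∣ v + t) :
    (S.card : ℝ) ≤ N / e * ∏ p ∈ P, (1 - 1 / (p : ℝ)) + 2 ^ P.card := by
  have h1 := (abs_le.mp (legendre P e a v N he hP)).2
  have h2 : (S.card : ℝ) ≤ ((((range N).filter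
      (fun t => t ≡ a [MOD e] ∧ ∀ p ∈ P, ¬ p ∣ v + t)).card : ℕ) : ℝ) := by
    exact_mod_cast Finset.card_le_card (fun t ht => by
      rw [Finset.mem_filter, Finset.mem_range]
      exact hS t ht)
  linarith

/-- `d^(3/8) ≤ 4 d φ(d) / d`. -/
private theorem rpow_le_tot (d : ℕ) (hd : 0 < d) (x : ℝ) (hx : (d.totient : ℝ) / d ≤ x) :
    (d : ℝ) ^ (3 / 8 : ℝ) ≤ 4 * (d * x) := by
  have hd0 : (0 : ℝ) < d := by exact_mod_cast hd
  have hd1 : (1 : ℝ) ≤ d := by exact_mod_cast hd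
  have hφ : (0 : ℝ) < d.totient := by exact_mod_cast Nat.totient_pos.mpr hd
  have h1 := rhoBound d hd
  have h2 : Real.log d ≤ (d : ℝ) ^ (5 / 8 : ℝ) / (5 / 8) :=
    Real.log_le_rpow_div hd0.le (by norm_num)
  have h3 : (1 : ℝ) ≤ (d : ℝ) ^ (5 / 8 : ℝ) := Real.one_le_rpow hd1 (by norm_num)
  have h4 : (0.6931 : ℝ) < Real.log 2 := by linarith [Real.log_two_gt_d9]
  have h5 : Real.log d / Real.log 2 ≤ 3 * (d : ℝ) ^ (5 / 8 : ℝ) := by
    rw [div_le_iff₀ (by linarith)]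
    have h6 : (0 : ℝ) ≤ (d : ℝ) ^ (5 / 8 : ℝ) := by linarith
    nlinarith
  have h7 : (d : ℝ) / d.totient ≤ 4 * (d : ℝ) ^ (5 / 8 : ℝ) := by linarith
  have h8 : (1 : ℝ) ≤ 4 * (d : ℝ) ^ (5 / 8 : ℝ) * x := by
    calc (1 : ℝ) = (d : ℝ) / d.totient * (d.totient / d) := by field_simp
      _ ≤ 4 * (d : ℝ) ^ (5 / 8 : ℝ) * x := by
        apply mul_le_mul h7 hx (by positivity) (by positivity)
  calc (d : ℝ) ^ (3 / 8 : ℝ) ≤ (d : ℝ) ^ (3 / 8 : ℝ) * (4 * (d : ℝ) ^ (5 / 8 : ℝ) * x) :=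
        le_mul_of_one_le_right (by positivity) h8
    _ = 4 * ((d : ℝ) ^ (3 / 8 : ℝ) * (d : ℝ) ^ (5 / 8 : ℝ) * x) := by ring
    _ = 4 * (d * x) := by
      rw [← Real.rpow_add hd0]
      norm_num

/-- Proof. Let `P` be the set of the primes `p ≥ D0` dividing `d`, `M = ∏ P`, and for `m ≥ 1`
`g m = ∏ (1 + 1/p)` over the primes `p ∣ m`, `¬ p ∣ d`. For each `t`:
`Sg ≤ ∏ i, g (|i d - t|) ≤ ∑ i, g (|i d - t|)^k`, and `(1 + 1/p)^k ≤ 1 + 2^k / p`, so
`g(m)^k ≤ ∑_{e ∣ m, e squarefree, (e, d) = 1} 2^(k ω(e)) / e`. Exchange the sums and count with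
`legendre`; `2^(k ω(e)) ≤ C_k e^(1/8)` and `rhoBound` give the result. -/
theorem singCop : SingCop := by
  classical
  intro k
  set S1 : ℝ := ∑' n : ℕ, (n : ℝ) ^ (-(15 / 8) : ℝ) with hS1
  set S2 : ℝ := ∑' n : ℕ, (n : ℝ) ^ (-(9 / 8) : ℝ) with hS2
  have hs1 : Summable (fun n : ℕ => (n : ℝ) ^ (-(15 / 8) : ℝ)) :=
    Real.summable_nat_rpow.mpr (by norm_num)
  have hs2 : Summable (fun n : ℕ => (n : ℝ) ^ (-(9 / 8) : ℝ)) :=
    Real.summable_nat_rpow.mpr (by norm_num)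
  have hS10 : 0 ≤ S1 := tsum_nonneg fun n => Real.rpow_nonneg (Nat.cast_nonneg n) _
  have hS20 : 0 ≤ S2 := tsum_nonneg fun n => Real.rpow_nonneg (Nat.cast_nonneg n) _
  obtain ⟨C1, hC1, hC1'⟩ := exists_two_pow 1
  obtain ⟨Ck, hCk, hCk'⟩ := exists_two_pow k
  refine ⟨k * (k * Ck * S1 + 4 * C1 * Ck * k * S2) + 1, by positivity, ?_⟩
  intro d D0 v hd inst
  have hd0 : (0 : ℝ) < d := by exact_mod_cast hd
  set P := d.primeFactors.filter (fun p => D0 ≤ p) with hPd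
  have hP : ∀ p ∈ P, p.Prime ∧ p ∣ d ∧ D0 ≤ p := by
    intro p hp
    rw [hPd, Finset.mem_filter] at hp
    exact ⟨Nat.prime_of_mem_primeFactors hp.1, Nat.dvd_of_mem_primeFactors hp.1, hp.2⟩
  set Q : ℝ := ∏ p ∈ P, (1 - 1 / (p : ℝ)) with hQ
  have hf0 : ∀ p : ℕ, p.Prime → (0 : ℝ) ≤ 1 - 1 / (p : ℝ) ∧ 1 - 1 / (p : ℝ) ≤ 1 := by
    intro p hp
    have h1 : (1 : ℝ) ≤ p := by exact_mod_cast hp.one_lt.le
    have h2 : 1 / (p : ℝ) ≤ 1 := by
      rw [div_le_one (by linarith)]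
      exact h1
    have h3 : 0 ≤ 1 / (p : ℝ) := by positivity
    constructor <;> linarith
  have hQ0 : 0 ≤ Q := Finset.prod_nonneg fun p hp => (hf0 p (hP p hp).1).1
  have hQφ : (d.totient : ℝ) / d ≤ Q := by
    have h1 : (d.totient : ℝ) = d * ∏ p ∈ d.primeFactors, (1 - 1 / (p : ℝ)) := by
      have := Nat.totient_eq_mul_prod_factors d
      have h2 : ((d.totient : ℚ) : ℝ) =
          ((d * ∏ p ∈ d.primeFactors, (1 - (p : ℚ)⁻¹) : ℚ) : ℝ) := by rw [this]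
      push_cast at h2
      rw [h2]
      congr 1
      apply Finset.prod_congr rfl
      intro p _
      rw [one_div]
    rw [h1, mul_div_cancel_left₀ _ hd0.ne']
    rw [← Finset.prod_filter_mul_prod_filter_not d.primeFactors (fun p => D0 ≤ p), ← hPd, ← hQ]
    apply mul_le_of_le_one_right hQ0
    apply Finset.prod_le_one
    · intro p hp
      exact (hf0 p (Nat.prime_of_mem_primeFactors (Finset.mem_filter.mp hp).1)).1
    · intro p hp
      exact (hf0 p (Nat.prime_of_mem_primeFactors (Finset.mem_filter.mp hp).1)).2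
  rcases Nat.eq_zero_or_pos k with hk | hk
  · subst hk
    simp only [Nat.zero_sub, zero_mul, Finset.range_zero, Finset.filter_empty, Finset.sum_empty]
    positivity
  have hk1 : (1 : ℝ) ≤ k := by exact_mod_cast hk
  set T := (range ((k - 1) * d)).filter
      (fun t => ¬ d ∣ t ∧ ∀ p : ℕ, p.Prime → D0 ≤ p → p ∣ d → ¬ p ∣ v + t) with hT
  have hTt : ∀ t ∈ T, t < (k - 1) * d ∧ ¬ d ∣ t ∧ ∀ p ∈ P, ¬ p ∣ v + t := by
    intro t ht
    rw [hT, Finset.mem_filter, Finset.mem_range] at ht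
    exact ⟨ht.1, ht.2.1, fun p hp => ht.2.2 p (hP p hp).1 (hP p hp).2.2 (hP p hp).2.1⟩
  set E := (Finset.Icc 1 (k * d)).filter (fun e => Nat.Coprime e d) with hE
  have hEe : ∀ e ∈ E, 0 < e ∧ e ≤ k * d ∧ Nat.Coprime e d := by
    intro e he
    rw [hE, Finset.mem_filter, Finset.mem_Icc] at he
    exact ⟨he.1.1, he.1.2, he.2⟩
  have hne : (Finset.univ : Finset (Fin k)).Nonempty := ⟨⟨0, hk⟩, Finset.mem_univ _⟩
  have hSg : ∀ t ∈ T, Sg (fun i : Fin k => (i : ℕ) * d) d t ≤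
      ∑ i : Fin k, ∑ e ∈ E, if e ∣ ((((i : ℕ) * d : ℕ) : ℤ) - t).natAbs then wt k e else 0 := by
    intro t ht
    obtain ⟨h1, h2, _⟩ := hTt t ht
    have hx0 : ∀ i : Fin k, ((((i : ℕ) * d : ℕ) : ℤ) - t).natAbs ≠ 0 := by
      intro i h
      have h3 : (i : ℕ) * d = t := by omega
      exact h2 (h3 ▸ Dvd.intro_left (i : ℕ) rfl)
    have hx1 : ∀ i : Fin k, ((((i : ℕ) * d : ℕ) : ℤ) - t).natAbs ≤ k * d := by
      intro i
      have h3 : (i : ℕ) * d ≤ k * d := Nat.mul_le_mul_right d i.2.le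
      have h4 : (k - 1) * d ≤ k * d := Nat.mul_le_mul_right d (Nat.sub_le k 1)
      omega
    calc Sg (fun i : Fin k => (i : ℕ) * d) d t =
          gf d (∏ i : Fin k, ((((i : ℕ) * d : ℕ) : ℤ) - t).natAbs) := rfl
      _ ≤ ∏ i : Fin k, gf d ((((i : ℕ) * d : ℕ) : ℤ) - t).natAbs :=
          gf_prod_le d Finset.univ _ (fun i _ => hx0 i)
      _ ≤ ∑ i : Fin k, gf d ((((i : ℕ) * d : ℕ) : ℤ) - t).natAbs ^ k :=
          prod_le_sum_pow k Finset.univ hne (by simp) _ (fun i _ => one_le_gf d _)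
      _ ≤ _ := Finset.sum_le_sum fun i _ => gf_pow_le k d _ _ (hx0 i) (hx1 i)
  have hcnt : ∀ i : Fin k, ∀ e ∈ E,
      ∑ t ∈ T, (if e ∣ ((((i : ℕ) * d : ℕ) : ℤ) - t).natAbs then wt k e else 0) ≤
        wt k e * ((((k - 1) * d : ℕ) : ℝ) / e * Q + 2 ^ P.card) := by
    intro i e he
    obtain ⟨he0, _, hec⟩ := hEe e he
    rw [← Finset.sum_filter, Finset.sum_const, nsmul_eq_mul, mul_comm]
    apply mul_le_mul_of_nonneg_left _ (wt_nonneg k e)
    apply count_le P e ((i : ℕ) * d) v ((k - 1) * d) he0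
    · intro p hp
      refine ⟨(hP p hp).1, fun h => ?_⟩
      have h1 := Nat.dvd_gcd h (hP p hp).2.1
      rw [hec] at h1
      exact (hP p hp).1.one_lt.ne' (Nat.dvd_one.mp h1)
    · intro t ht
      rw [Finset.mem_filter] at ht
      obtain ⟨h1, _, h3⟩ := hTt t ht.1
      refine ⟨h1, ?_, h3⟩
      rw [Nat.modEq_iff_dvd]
      exact Int.natCast_dvd.mpr ht.2
  have hkd0 : (0 : ℝ) < ((k * d : ℕ) : ℝ) := by
    exact_mod_cast Nat.mul_pos hk hd
  have hterm : ∀ e ∈ E, wt k e * ((((k - 1) * d : ℕ) : ℝ) / e * Q + 2 ^ P.card) ≤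
      (((k - 1) * d : ℕ) : ℝ) * Q * Ck * (e : ℝ) ^ (-(15 / 8) : ℝ) +
        2 ^ P.card * Ck * ((k * d : ℕ) : ℝ) ^ (1 / 4 : ℝ) * (e : ℝ) ^ (-(9 / 8) : ℝ) := by
    intro e he
    obtain ⟨he0, hek, _⟩ := hEe e he
    have her : (0 : ℝ) < e := by exact_mod_cast he0
    have h1 : wt k e ≤ Ck * (e : ℝ) ^ (-(7 / 8) : ℝ) := by
      have h2 : (e : ℝ) ^ (-(7 / 8) : ℝ) = (e : ℝ) ^ (1 / 8 : ℝ) / e := by
        rw [← Real.rpow_sub_one her.ne']
        norm_num
      rw [h2, ← mul_div_assoc]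
      unfold wt
      exact div_le_div_of_nonneg_right (hCk' e he0) her.le
    have h3 : (e : ℝ) ^ (-(7 / 8) : ℝ) / e = (e : ℝ) ^ (-(15 / 8) : ℝ) := by
      rw [← Real.rpow_sub_one her.ne']
      norm_num
    have h4 : (e : ℝ) ^ (-(7 / 8) : ℝ) ≤
        ((k * d : ℕ) : ℝ) ^ (1 / 4 : ℝ) * (e : ℝ) ^ (-(9 / 8) : ℝ) := by
      have h5 : (e : ℝ) ^ (-(7 / 8) : ℝ) = (e : ℝ) ^ (1 / 4 : ℝ) * (e : ℝ) ^ (-(9 / 8) : ℝ) := by
        rw [← Real.rpow_add her]
        norm_num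
      rw [h5]
      apply mul_le_mul_of_nonneg_right _ (by positivity)
      apply Real.rpow_le_rpow her.le _ (by norm_num)
      exact_mod_cast hek
    calc wt k e * ((((k - 1) * d : ℕ) : ℝ) / e * Q + 2 ^ P.card)
        ≤ (Ck * (e : ℝ) ^ (-(7 / 8) : ℝ)) *
          ((((k - 1) * d : ℕ) : ℝ) / e * Q + 2 ^ P.card) :=
          mul_le_mul_of_nonneg_right h1 (by positivity)
      _ = (((k - 1) * d : ℕ) : ℝ) * Q * Ck * ((e : ℝ) ^ (-(7 / 8) : ℝ) / e) +
          2 ^ P.card * Ck * (e : ℝ) ^ (-(7 / 8) : ℝ) := by ring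
      _ ≤ _ := by
          rw [h3]
          have h6 : (0 : ℝ) ≤ 2 ^ P.card * Ck := by positivity
          have h7 := mul_le_mul_of_nonneg_left h4 h6
          linarith
  have hE1 : ∑ e ∈ E, (e : ℝ) ^ (-(15 / 8) : ℝ) ≤ S1 :=
    hs1.sum_le_tsum E fun n _ => Real.rpow_nonneg (Nat.cast_nonneg n) _
  have hE2 : ∑ e ∈ E, (e : ℝ) ^ (-(9 / 8) : ℝ) ≤ S2 :=
    hs2.sum_le_tsum E fun n _ => Real.rpow_nonneg (Nat.cast_nonneg n) _
  have hPc : (2 : ℝ) ^ P.card ≤ C1 * (d : ℝ) ^ (1 / 8 : ℝ) := by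
    refine le_trans ?_ (hC1' d hd)
    rw [one_mul]
    exact pow_le_pow_right₀ (by norm_num) (Finset.card_le_card (Finset.filter_subset _ _))
  have hkd4 : ((k * d : ℕ) : ℝ) ^ (1 / 4 : ℝ) ≤ k * (d : ℝ) ^ (1 / 4 : ℝ) := by
    rw [Nat.cast_mul, Real.mul_rpow (by linarith) hd0.le]
    apply mul_le_mul_of_nonneg_right _ (by positivity)
    calc (k : ℝ) ^ (1 / 4 : ℝ) ≤ (k : ℝ) ^ (1 : ℝ) :=
          Real.rpow_le_rpow_of_exponent_le hk1 (by norm_num)
      _ = k := Real.rpow_one _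
  have hN : (((k - 1) * d : ℕ) : ℝ) ≤ k * d := by
    exact_mod_cast Nat.mul_le_mul_right d (Nat.sub_le k 1)
  have hd38 := rpow_le_tot d hd Q hQφ
  have hB : 2 ^ P.card * Ck * ((k * d : ℕ) : ℝ) ^ (1 / 4 : ℝ) * S2 ≤
      4 * C1 * Ck * k * S2 * (d * Q) := by
    calc 2 ^ P.card * Ck * ((k * d : ℕ) : ℝ) ^ (1 / 4 : ℝ) * S2
        ≤ (C1 * (d : ℝ) ^ (1 / 8 : ℝ)) * Ck * (k * (d : ℝ) ^ (1 / 4 : ℝ)) * S2 := by
          gcongr
      _ = C1 * Ck * k * S2 * ((d : ℝ) ^ (1 / 8 : ℝ) * (d : ℝ) ^ (1 / 4 : ℝ)) := by ring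
      _ = C1 * Ck * k * S2 * (d : ℝ) ^ (3 / 8 : ℝ) := by
          rw [← Real.rpow_add hd0]
          norm_num
      _ ≤ C1 * Ck * k * S2 * (4 * (d * Q)) := by gcongr
      _ = _ := by ring
  have hA : (((k - 1) * d : ℕ) : ℝ) * Q * Ck * S1 ≤ k * Ck * S1 * (d * Q) := by
    calc (((k - 1) * d : ℕ) : ℝ) * Q * Ck * S1 ≤ (k * d) * Q * Ck * S1 := by gcongr
      _ = _ := by ring
  calc ∑ t ∈ T, Sg (fun i : Fin k => (i : ℕ) * d) d t
      ≤ ∑ t ∈ T, ∑ i : Fin k, ∑ e ∈ E,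
          (if e ∣ ((((i : ℕ) * d : ℕ) : ℤ) - t).natAbs then wt k e else 0) :=
        Finset.sum_le_sum hSg
    _ = ∑ i : Fin k, ∑ e ∈ E, ∑ t ∈ T,
          (if e ∣ ((((i : ℕ) * d : ℕ) : ℤ) - t).natAbs then wt k e else 0) := by
        rw [Finset.sum_comm]
        apply Finset.sum_congr rfl
        intro i _
        rw [Finset.sum_comm]
    _ ≤ ∑ i : Fin k, ∑ e ∈ E, ((((k - 1) * d : ℕ) : ℝ) * Q * Ck * (e : ℝ) ^ (-(15 / 8) : ℝ) +
          2 ^ P.card * Ck * ((k * d : ℕ) : ℝ) ^ (1 / 4 : ℝ) * (e : ℝ) ^ (-(9 / 8) : ℝ)) :=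
        Finset.sum_le_sum fun i _ => Finset.sum_le_sum fun e he =>
          (hcnt i e he).trans (hterm e he)
    _ = k * ((((k - 1) * d : ℕ) : ℝ) * Q * Ck * ∑ e ∈ E, (e : ℝ) ^ (-(15 / 8) : ℝ) +
          2 ^ P.card * Ck * ((k * d : ℕ) : ℝ) ^ (1 / 4 : ℝ) *
            ∑ e ∈ E, (e : ℝ) ^ (-(9 / 8) : ℝ)) := by
        rw [Finset.sum_const, Finset.card_univ, Fintype.card_fin, nsmul_eq_mul,
          Finset.sum_add_distrib, ← Finset.mul_sum, ← Finset.mul_sum]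
    _ ≤ k * ((((k - 1) * d : ℕ) : ℝ) * Q * Ck * S1 +
          2 ^ P.card * Ck * ((k * d : ℕ) : ℝ) ^ (1 / 4 : ℝ) * S2) := by
        gcongr
    _ ≤ k * (k * Ck * S1 * (d * Q) + 4 * C1 * Ck * k * S2 * (d * Q)) := by
        gcongr
    _ ≤ (k * (k * Ck * S1 + 4 * C1 * Ck * k * S2) + 1) * d * Q := by
        have h9 : 0 ≤ d * Q := by positivity
        nlinarith

end Pool.Agent.Helper4.PU
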