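import Pool.Agent.Helper66.PAP.Bad
import Pool.Agent.Helper4.PU.Defs

/-!
# Project PU, module 4: the sets of at most `m` primes up to `z`
-/

set_option autoImplicit false

open Finset

namespace Pool.Agent.Helper4.PU

open Pool.Agent.Helper1.MT

/-- `∑_{A ⊆ B, |A| ≤ m} ∏_{p ∈ A} f p ≤ (1 + ∑_{p ∈ B} f p)^m` for `f ≥ 0`. -/
private theorem sum_small_sets (f : ℕ → ℝ) (B : Finset ℕ) (hf : ∀ p ∈ B, 0 ≤ f p) (m : ℕ) :
    ∑ A ∈ B.powerset, (if A.card ≤ m then ∏ p ∈ A, f p else 0) ≤ (1 + ∑ p ∈ B, f p) ^ m := by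
  classical
  induction B using Finset.induction_on generalizing m with
  | empty => simp
  | insert a B ha ih =>
    have hfB : ∀ p ∈ B, 0 ≤ f p := fun p hp => hf p (mem_insert_of_mem hp)
    have hfa : 0 ≤ f a := hf a (mem_insert_self _ _)
    have hs : 0 ≤ ∑ p ∈ B, f p := Finset.sum_nonneg hfB
    rw [Finset.sum_powerset_insert ha, Finset.sum_insert ha]
    rcases m with _ | m
    · have h2 : ∑ t ∈ B.powerset,
          (if (insert a t).card ≤ 0 then ∏ p ∈ insert a t, f p else 0) = 0 := by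
        refine Finset.sum_eq_zero fun t _ => ?_
        rw [if_neg]
        rw [Nat.le_zero, Finset.card_eq_zero]
        exact Finset.insert_ne_empty _ _
      rw [h2, add_zero, pow_zero]
      have h3 := ih hfB 0
      rwa [pow_zero] at h3
    · have h2 : ∑ t ∈ B.powerset,
          (if (insert a t).card ≤ m + 1 then ∏ p ∈ insert a t, f p else 0) =
          f a * ∑ t ∈ B.powerset, (if t.card ≤ m then ∏ p ∈ t, f p else 0) := by
        rw [Finset.mul_sum]
        refine Finset.sum_congr rfl fun t ht => ?_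
        have hat : a ∉ t := fun h => ha (Finset.mem_powerset.1 ht h)
        rw [Finset.card_insert_of_notMem hat, Finset.prod_insert hat]
        by_cases h : t.card ≤ m
        · rw [if_pos h, if_pos (by omega)]
        · rw [if_neg h, if_neg (by omega), mul_zero]
      rw [h2]
      have h3 := ih hfB (m + 1)
      have h4 := mul_le_mul_of_nonneg_left (ih hfB m) hfa
      have h5 : (1 + ∑ p ∈ B, f p) ^ m ≤ (1 + (f a + ∑ p ∈ B, f p)) ^ m :=
        pow_le_pow_left₀ (by linarith) (by linarith) m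
      calc _ ≤ (1 + ∑ p ∈ B, f p) ^ (m + 1) + f a * (1 + ∑ p ∈ B, f p) ^ m :=
            add_le_add h3 h4
        _ = (1 + ∑ p ∈ B, f p) ^ m * (1 + (f a + ∑ p ∈ B, f p)) := by ring
        _ ≤ (1 + (f a + ∑ p ∈ B, f p)) ^ m * (1 + (f a + ∑ p ∈ B, f p)) :=
            mul_le_mul_of_nonneg_right h5 (by linarith)
        _ = _ := by ring

private theorem Sm_eq (R W m : ℕ) (z : ℝ) [DecidablePred fun p : ℕ => (p : ℝ) ≤ z] :
    Sm R W m z = ((PS R W).filter (fun p : ℕ => (p : ℝ) ≤ z)).powerset.filter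
      (fun A => A.card ≤ m) := by
  ext A
  rw [mem_Sm, mem_filter, mem_powerset]
  constructor
  · rintro ⟨h1, h2, h3⟩
    exact ⟨fun p hp => mem_filter.2 ⟨h1 hp, h3 p hp⟩, h2⟩
  · rintro ⟨h1, h2⟩
    exact ⟨fun p hp => (mem_filter.1 (h1 hp)).1, h2, fun p hp => (mem_filter.1 (h1 hp)).2⟩

/-- `∑_{A ⊆ B, |A| ≤ m} ∏_{p ∈ A} f p ≤ (1 + ∑_{p ∈ B} f p)^m` for `f ≥ 0` (induction on `B`),
with `f p = 18 / p`, resp. `f = 1`, and `B` the primes of `PS R W` up to `z` (at most `z` of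
them). -/
theorem smallSets : SmallSets := by
  classical
  obtain ⟨C, hC, hC'⟩ := Pool.Agent.Helper66.PAP.sum_inv_small
  refine ⟨C + 1, by linarith, fun R W m z hR hz => ?_⟩
  set B := (PS R W).filter (fun p : ℕ => (p : ℝ) ≤ z) with hB
  have hBs : B ⊆ PS R W := Finset.filter_subset _ _
  constructor
  · have h1 := hC' R W hR
    have h2 : ∑ q : PS R W, 1 / ((q : ℕ) : ℝ) = ∑ p ∈ PS R W, 1 / (p : ℝ) :=
      Finset.sum_coe_sort (PS R W) (fun p : ℕ => 1 / (p : ℝ))
    rw [h2] at h1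
    have h3 : ∑ p ∈ B, 1 / (p : ℝ) ≤ ∑ p ∈ PS R W, 1 / (p : ℝ) :=
      Finset.sum_le_sum_of_subset_of_nonneg hBs fun p _ _ => by positivity
    have h4 : ∑ p ∈ B, 18 / (p : ℝ) = 18 * ∑ p ∈ B, 1 / (p : ℝ) := by
      rw [Finset.mul_sum]
      refine Finset.sum_congr rfl fun p _ => ?_
      ring
    have h5 : 0 ≤ ∑ p ∈ B, 18 / (p : ℝ) := Finset.sum_nonneg fun p _ => by positivity
    have h6 := sum_small_sets (fun p => 18 / (p : ℝ)) B (fun p _ => by positivity) m
    have h7 : ∑ A ∈ Sm R W m z, (18 : ℝ) ^ A.card / ∏ p ∈ A, (p : ℝ) =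
        ∑ A ∈ B.powerset, (if A.card ≤ m then ∏ p ∈ A, 18 / (p : ℝ) else 0) := by
      rw [Sm_eq, Finset.sum_filter]
      refine Finset.sum_congr rfl fun A _ => ?_
      by_cases h : A.card ≤ m
      · rw [if_pos h, if_pos h, Finset.prod_div_distrib, Finset.prod_const]
      · rw [if_neg h, if_neg h]
    rw [h7]
    refine h6.trans (pow_le_pow_left₀ (by linarith) ?_ m)
    rw [h4]
    linarith
  · have h6 := sum_small_sets (fun _ => 1) B (fun p _ => zero_le_one) m
    have h7 : ((Sm R W m z).card : ℝ) =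
        ∑ A ∈ B.powerset, (if A.card ≤ m then ∏ p ∈ A, (1 : ℝ) else 0) := by
      rw [Sm_eq, ← Finset.sum_filter, Finset.cast_card]
      refine Finset.sum_congr rfl fun A _ => ?_
      rw [Finset.prod_const_one]
    rw [h7]
    refine h6.trans (pow_le_pow_left₀ ?_ ?_ m)
    · have : (0 : ℝ) ≤ ∑ p ∈ B, (1 : ℝ) := Finset.sum_nonneg fun p _ => zero_le_one
      linarith
    · have h8 : B ⊆ Ioc 0 ⌊z⌋₊ := by
        intro p hp
        obtain ⟨h9, h10⟩ := mem_filter.1 hp
        rw [Pool.Agent.Helper66.PAP.mem_PS] at h9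
        rw [mem_Ioc]
        exact ⟨h9.2.1.pos, Nat.le_floor h10⟩
      have h9 : B.card ≤ ⌊z⌋₊ := by
        have := Finset.card_le_card h8
        rwa [Nat.card_Ioc, Nat.sub_zero] at this
      have h10 : (B.card : ℝ) ≤ z :=
        (Nat.cast_le.2 h9).trans (Nat.floor_le (by linarith))
      rw [Finset.sum_const, nsmul_eq_mul, mul_one]
      linarith

end Pool.Agent.Helper4.PU
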