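import Pool.Agent.Helper12.MT.Star
import Pool.Agent.Helper4.PU.Defs

/-!
# Project PU, module 1: the majorant with one additional colour, for arbitrary weights
-/

set_option autoImplicit false
set_option linter.unusedSectionVars false

open Finset

namespace Pool.Agent.Helper4.PU

open Pool.Agent.Helper1.MT
open Pool.Agent.Helper12.MT
open Pool.Agent.Helper90.MT (ws_nonneg mem_cls mem_supp ws_supp)

section Gen

variable {ι κ : Type} [Fintype ι] [Fintype κ] [DecidableEq ι] [DecidableEq κ]

/-- The majorant. -/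
private noncomputable def yg (w t : ι → ℝ) (y : (ι → Option κ) → ℝ) (bad : Finset ι)
    (c : ι → Option (Option κ)) : ℝ :=
  (-1) ^ (sstar c).card * (if T t (sstar c) ≤ 1 ∧ Disjoint (sstar c) bad then 1 else 0) *
    (y (spart c) / VV w t bad (spart c))

private theorem yg_smk (w t : ι → ℝ) (y : (ι → Option κ) → ℝ) (bad : Finset ι)
    {b : ι → Option κ} {S : Finset ι} (h : Disjoint S (supp b)) :
    yg w t y bad (smk b S) = (-1) ^ S.card * (if T t S ≤ 1 ∧ Disjoint S bad then 1 else 0) *
      (y b / VV w t bad b) := by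
  unfold yg
  rw [sstar_smk, spart_smk h]

private theorem lam_yg {w t : ι → ℝ} (hw : ∀ p, 0 ≤ w p) (y : (ι → Option κ) → ℝ)
    (bad : Finset ι) (c : ι → Option κ) :
    lam w (yg w t y bad) (fun p => (c p).map some) = lam w y c := by
  unfold lam
  rw [sum_star]
  refine Finset.sum_congr rfl fun b _ => ?_
  have hV : VV w t bad b ≠ 0 := (lt_of_lt_of_le one_pos (one_le_VV hw bad b)).ne'
  have h1 : ∀ S ∈ univ.filter (fun S => Disjoint S (supp b)),
      (∏ p, inv (w p) ((c p).map some) (smk b S p)) * yg w t y bad (smk b S) =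
        (∏ p, inv (w p) (c p) (b p)) * (y b / VV w t bad b) *
          (if T t S ≤ 1 ∧ Disjoint S bad then ws w S else 0) := by
    intro S hS
    have hS' : Disjoint S (supp b) := (Finset.mem_filter.1 hS).2
    rw [prod_inv w c b hS', yg_smk w t y bad hS']
    have h2 : ∏ p ∈ S, (- w p) = (-1) ^ S.card * ws w S := by
      unfold ws
      rw [← Finset.prod_const, ← Finset.prod_mul_distrib]
      refine Finset.prod_congr rfl fun p _ => ?_
      ring
    rw [h2]
    have h3 : ((-1 : ℝ) ^ S.card) * (-1) ^ S.card = 1 := by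
      rw [← mul_pow]
      norm_num
    by_cases h : T t S ≤ 1 ∧ Disjoint S bad
    · rw [if_pos h, if_pos h]
      linear_combination (ws w S * (∏ p, inv (w p) (c p) (b p)) *
        (y b / VV w t bad b)) * h3
    · rw [if_neg h, if_neg h]
      ring
  rw [Finset.sum_congr rfl h1, ← Finset.mul_sum, ← Finset.sum_filter]
  have h4 : ∑ S ∈ (univ.filter (fun S => Disjoint S (supp b))).filter
      (fun S => T t S ≤ 1 ∧ Disjoint S bad), ws w S = VV w t bad b := rfl
  rw [h4, mul_assoc, div_mul_cancel₀ _ hV]

private theorem energy_yg {w t : ι → ℝ} (hw : ∀ p, 0 ≤ w p) (y : (ι → Option κ) → ℝ)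
    (bad : Finset ι) :
    ∑ c : ι → Option (Option κ), ws w (supp c) * yg w t y bad c ^ 2 =
      ∑ b : ι → Option κ, ws w (supp b) * y b ^ 2 / VV w t bad b := by
  rw [sum_star]
  refine Finset.sum_congr rfl fun b _ => ?_
  have hV : VV w t bad b ≠ 0 := (lt_of_lt_of_le one_pos (one_le_VV hw bad b)).ne'
  have h1 : ∀ S ∈ univ.filter (fun S => Disjoint S (supp b)),
      ws w (supp (smk b S)) * yg w t y bad (smk b S) ^ 2 =
        ws w (supp b) * (y b / VV w t bad b) ^ 2 *
          (if T t S ≤ 1 ∧ Disjoint S bad then ws w S else 0) := by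
    intro S hS
    have hS' : Disjoint S (supp b) := (Finset.mem_filter.1 hS).2
    rw [supp_smk, yg_smk w t y bad hS']
    have h2 : ws w (S ∪ supp b) = ws w S * ws w (supp b) := Finset.prod_union hS'
    rw [h2, mul_pow, mul_pow]
    have h3 : ((-1 : ℝ) ^ S.card) ^ 2 = 1 := by
      rw [← pow_mul, mul_comm, pow_mul]
      norm_num
    rw [h3]
    by_cases h : T t S ≤ 1 ∧ Disjoint S bad
    · rw [if_pos h, if_pos h]
      ring
    · rw [if_neg h, if_neg h]
      ring
  rw [Finset.sum_congr rfl h1, ← Finset.mul_sum, ← Finset.sum_filter]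
  have h4 : ∑ S ∈ (univ.filter (fun S => Disjoint S (supp b))).filter
      (fun S => T t S ≤ 1 ∧ Disjoint S bad), ws w S = VV w t bad b := rfl
  rw [h4]
  field_simp

end Gen

/-- Copy `yst`, `lam_yst`, `energy_yst` and `starMajorant` of Helper12/MT/Star.lean with an
arbitrary `y` in place of `yw t γ`: `y' c = (-1)^|S| * [T t S ≤ 1 ∧ Disjoint S bad] *
(y (spart c) / VV w t bad (spart c))`, `S = sstar c`. `V0_le` and `one_le_VV` may be used. No
assumption on `y` besides the bound and the support is needed. -/
theorem starGen : StarGen := by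
  intro ι κ _ _ _ _ w t y b bad hw ht hb hy
  have hb0 : 0 ≤ b := (abs_nonneg _).trans (hb fun _ => none)
  refine ⟨yg w t y bad, fun c => lam_yg hw y bad c, fun c hc => ?_, fun c => ?_, ?_⟩
  · -- the support
    unfold yg at hc
    have h1 : T t (sstar c) ≤ 1 ∧ Disjoint (sstar c) bad := by
      by_contra h
      rw [if_neg h] at hc
      simp at hc
    have h2 : T t (supp (spart c)) ≤ 1 := by
      apply hy
      intro h
      rw [h] at hc
      simp at hc
    constructor
    · have h3 : supp c = sstar c ∪ supp (spart c) := by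
        conv_lhs => rw [← smk_self c]
        rw [supp_smk]
      have h4 : T t (supp c) = T t (sstar c) + T t (supp (spart c)) := by
        rw [h3]
        exact Finset.sum_union (disj_self c)
      rw [h4]
      linarith [h1.1]
    · intro p hp hcp
      refine Finset.disjoint_right.1 h1.2 hp ?_
      simp [sstar, hcp]
  · -- the bound
    unfold yg
    rw [abs_mul, abs_mul, abs_pow, abs_neg, abs_one, one_pow, one_mul, abs_div]
    have h1 := one_le_VV hw (t := t) bad (spart c)
    have h3 : |y (spart c)| / |VV w t bad (spart c)| ≤ b := by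
      rw [abs_of_nonneg (le_trans zero_le_one h1)]
      rw [div_le_iff₀ (lt_of_lt_of_le one_pos h1)]
      refine (hb _).trans ?_
      nlinarith
    by_cases h : T t (sstar c) ≤ 1 ∧ Disjoint (sstar c) bad
    · rw [if_pos h, abs_one, one_mul]
      exact h3
    · rw [if_neg h, abs_zero, zero_mul]
      exact hb0
  · -- the energy
    rw [energy_yg hw, Finset.sum_mul, Finset.sum_mul]
    refine Finset.sum_le_sum fun c _ => ?_
    have hV := lt_of_lt_of_le one_pos (one_le_VV hw (t := t) bad c)
    have h2 := V0_le hw ht bad c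
    have h3 : 0 ≤ ws w (supp c) * y c ^ 2 / VV w t bad c :=
      div_nonneg (mul_nonneg (Pool.Agent.Helper90.MT.ws_nonneg hw _) (sq_nonneg _)) hV.le
    calc ws w (supp c) * y c ^ 2 / VV w t bad c * V0 w t
        ≤ ws w (supp c) * y c ^ 2 / VV w t bad c *
          ((∏ p ∈ supp c, (1 + w p)) * (∏ p ∈ bad, (1 + w p)) * VV w t bad c) :=
          mul_le_mul_of_nonneg_left h2 h3
      _ = ws w (supp c) * y c ^ 2 * (∏ p ∈ supp c, (1 + w p)) *
          ∏ p ∈ bad, (1 + w p) := by
          field_simp

end Pool.Agent.Helper4.PU
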