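import Pool.Agent.Helper4.PU.Defs

/-!
# Project PU, module 6a: integers in a residue class that avoid a class modulo each prime of `P`
-/

set_option autoImplicit false

open Finset

namespace Pool.Agent.Helper4.PU

private theorem base_case (e a N : ℕ) (he : 0 < e) :
    |((((range N).filter (fun t => t ≡ a [MOD e])).card : ℕ) : ℝ) - N / e| ≤ 1 := by
  rw [← Nat.count_eq_card_filter_range, Nat.count_modEq_card N he]
  have he' : (0 : ℝ) < e := by exact_mod_cast he
  have h1 : ((N / e : ℕ) : ℝ) ≤ (N : ℝ) / e := Nat.cast_div_le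
  have h2 : (N : ℝ) / e < ((N / e : ℕ) : ℝ) + 1 := by
    rw [div_lt_iff₀ he']
    have h3 : N < e * (N / e + 1) := Nat.lt_mul_div_succ N he
    have h4 : (N : ℝ) < ((e * (N / e + 1) : ℕ) : ℝ) := by exact_mod_cast h3
    push_cast at h4
    linarith
  rw [abs_le]
  split_ifs
  · push_cast
    constructor <;> linarith
  · push_cast
    constructor <;> linarith

private theorem class_iff {q e a v : ℕ} (hq : q.Prime) (hqe : ¬ q ∣ e) :
    ∃ a', ∀ t, (t ≡ a [MOD e] ∧ q ∣ v + t) ↔ t ≡ a' [MOD e * q] := by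
  have hc : Nat.Coprime e q := ((Nat.Prime.coprime_iff_not_dvd hq).2 hqe).symm
  -- a residue `b` with `q ∣ v + b`
  have hb : ∀ t, q ∣ v + t ↔ t ≡ (q - v % q) [MOD q] := by
    intro t
    have hlt : v % q < q := Nat.mod_lt _ hq.pos
    have h1 : v + (q - v % q) ≡ 0 [MOD q] := by
      have h2 : v + (q - v % q) = q * (v / q + 1) := by
        have := Nat.div_add_mod v q
        rw [mul_add, mul_one]
        omega
      rw [h2]
      exact (Nat.modEq_zero_iff_dvd).2 (dvd_mul_right _ _)
    constructor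
    · intro h
      have h3 : v + t ≡ v + (q - v % q) [MOD q] :=
        ((Nat.modEq_zero_iff_dvd).2 h).trans h1.symm
      exact Nat.ModEq.add_left_cancel' v h3
    · intro h
      exact (Nat.modEq_zero_iff_dvd).1 ((Nat.ModEq.add_left v h).trans h1)
  obtain ⟨c, hc1, hc2⟩ := Nat.chineseRemainder hc a (q - v % q)
  refine ⟨c, fun t => ?_⟩
  rw [hb t]
  constructor
  · rintro ⟨h1, h2⟩
    exact (Nat.modEq_and_modEq_iff_modEq_mul hc).1 ⟨h1.trans hc1.symm, h2.trans hc2.symm⟩
  · intro h
    have h3 := (Nat.modEq_and_modEq_iff_modEq_mul hc).2 h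
    exact ⟨h3.1.trans hc1, h3.2.trans hc2⟩

/-- Induction on `P`, for all `e` and `a`: the count for `insert q P` is the count for `P` minus
the count for `P` with `t ≡ a [MOD e]`, `q ∣ v + t`, and these two conditions are one condition
`t ≡ a' [MOD e * q]` (`Pool.Agent.Helper66.PAP.exists_class`). The case `P = ∅` is
`|#{t < N : t ≡ a [MOD e]} - N / e| ≤ 1` (`Nat.count_modEq_card` or similar). -/
theorem legendre : Legendre := by
  intro P
  induction P using Finset.induction_on with
  | empty =>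
    intro e a v N he _
    have h := base_case e a N he
    simp only [notMem_empty, false_imp_iff, implies_true, and_true, prod_empty, mul_one,
      card_empty, pow_zero]
    exact h
  | insert q P hqP ih =>
    intro e a v N he hP
    have hq := hP q (mem_insert_self q P)
    obtain ⟨a', ha'⟩ := class_iff (a := a) (v := v) hq.1 hq.2
    have hP1 : ∀ p ∈ P, p.Prime ∧ ¬ p ∣ e := fun p hp => hP p (mem_insert_of_mem hp)
    have hP2 : ∀ p ∈ P, p.Prime ∧ ¬ p ∣ e * q := by
      intro p hp
      refine ⟨(hP1 p hp).1, fun h => ?_⟩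
      rcases ((hP1 p hp).1.dvd_mul).1 h with h | h
      · exact (hP1 p hp).2 h
      · have := (Nat.prime_dvd_prime_iff_eq (hP1 p hp).1 hq.1).1 h
        exact hqP (this ▸ hp)
    have i1 := ih e a v N he hP1
    have i2 := ih (e * q) a' v N (Nat.mul_pos he hq.1.pos) hP2
    set F1 := (range N).filter (fun t => t ≡ a [MOD e] ∧ ∀ p ∈ P, ¬ p ∣ v + t) with hF1
    set F2 := (range N).filter (fun t => t ≡ a' [MOD e * q] ∧ ∀ p ∈ P, ¬ p ∣ v + t) with hF2
    have hsub : F2 ⊆ F1 := by
      intro t ht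
      rw [hF2, mem_filter] at ht
      rw [hF1, mem_filter]
      exact ⟨ht.1, ((ha' t).2 ht.2.1).1, ht.2.2⟩
    have hF : (range N).filter (fun t => t ≡ a [MOD e] ∧ ∀ p ∈ insert q P, ¬ p ∣ v + t) =
        F1 \ F2 := by
      ext t
      rw [mem_sdiff, hF1, hF2, mem_filter, mem_filter, mem_filter]
      constructor
      · rintro ⟨h1, h2, h3⟩
        refine ⟨⟨h1, h2, fun p hp => h3 p (mem_insert_of_mem hp)⟩, fun h4 => ?_⟩
        exact h3 q (mem_insert_self q P) ((ha' t).2 h4.2.1).2
      · rintro ⟨⟨h1, h2, h3⟩, h4⟩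
        refine ⟨h1, h2, fun p hp => ?_⟩
        rcases mem_insert.1 hp with rfl | hp
        · intro h5
          exact h4 ⟨h1, (ha' t).1 ⟨h2, h5⟩, h3⟩
        · exact h3 p hp
    have hcard : ((((range N).filter
        (fun t => t ≡ a [MOD e] ∧ ∀ p ∈ insert q P, ¬ p ∣ v + t)).card : ℕ) : ℝ) =
        (F1.card : ℝ) - (F2.card : ℝ) := by
      rw [hF, card_sdiff_of_subset hsub, Nat.cast_sub (card_le_card hsub)]
    rw [hcard, prod_insert hqP, card_insert_of_notMem hqP, pow_succ]
    have he' : (e : ℝ) ≠ 0 := by exact_mod_cast he.ne'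
    have hq' : (q : ℝ) ≠ 0 := by exact_mod_cast hq.1.pos.ne'
    have key : (F1.card : ℝ) - F2.card - N / e * ((1 - 1 / (q : ℝ)) * ∏ p ∈ P, (1 - 1 / (p : ℝ))) =
        ((F1.card : ℝ) - N / e * ∏ p ∈ P, (1 - 1 / (p : ℝ))) -
          ((F2.card : ℝ) - N / ((e * q : ℕ) : ℝ) * ∏ p ∈ P, (1 - 1 / (p : ℝ))) := by
      push_cast
      field_simp
      ring
    rw [key]
    calc _ ≤ _ + _ := abs_sub _ _
      _ ≤ 2 ^ P.card + 2 ^ P.card := add_le_add i1 i2
      _ = _ := by ring

end Pool.Agent.Helper4.PU
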