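import Pool.Agent.Helper23.UOc2
import Pool.Agent.Helper72.UPow.Near
import Pool.Agent.Helper70.U8
import Pool.Agent.Helper53.U.Eig
import Pool.Agent.Helper4.PU.U2

/-!
# Module U10 of project U: defects and saturation in the ultrapower
-/

open scoped InnerProductSpace Topology
open ContinuousLinearMap Filter

namespace Pool.Agent.Helper23

universe u

variable {H : Type u} [NormedAddCommGroup H] [InnerProductSpace ℂ H] [CompleteSpace H]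
variable {K : Type u} [NormedAddCommGroup K] [InnerProductSpace ℂ K] [CompleteSpace K]
variable {M N : VonNeumannAlgebra H} {ξ : H} {E : (H →L[ℂ] H) → (H →L[ℂ] H)}

namespace U10

lemma eventually_ge (k : ℕ) : ∀ᶠ n in (UU : Filter ℕ), k ≤ n := by
  have h1 : (UU : Filter ℕ) ≤ atTop := by
    rw [← Nat.cofinite_eq_atTop]
    exact Filter.hyperfilter_le_cofinite
  exact h1 (eventually_ge_atTop k)

/-- diagonalisation along the ultrafilter -/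
lemma exists_diag {P : ℕ → ℕ → Prop} (h : ∀ k, ∀ᶠ n in (UU : Filter ℕ), P k n) :
    ∃ k : ℕ → ℕ, (∀ᶠ n in (UU : Filter ℕ), P (k n) n) ∧
      ∀ m, ∀ᶠ n in (UU : Filter ℕ), m ≤ k n := by
  classical
  refine ⟨fun n => Nat.findGreatest (fun k => P k n) n, ?_, fun m => ?_⟩
  · filter_upwards [h 0] with n hn
    exact Nat.findGreatest_spec (P := fun k => P k n) (Nat.zero_le n) hn
  · filter_upwards [h m, eventually_ge m] with n hn hm
    exact Nat.le_findGreatest (P := fun k => P k n) hm hn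

lemma not_eventually {p : ℕ → Prop} (h : ¬ ∀ᶠ n in (UU : Filter ℕ), p n) :
    ∀ᶠ n in (UU : Filter ℕ), ¬ p n := Ultrafilter.eventually_not.2 h

/-! ### the algebra of sequences -/

lemma appS_add {x y : ℕ → H →L[ℂ] H} (hx : x ∈ AppS M ξ) (hy : y ∈ AppS M ξ) :
    (fun n => x n + y n) ∈ AppS M ξ := by
  refine ⟨AppR_add hx.1 hy.1, ?_⟩
  have := AppR_add hx.2 hy.2
  simpa only [star_add] using this

lemma appS_smul (c : ℂ) {x : ℕ → H →L[ℂ] H} (hx : x ∈ AppS M ξ) :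
    (fun n => c • x n) ∈ AppS M ξ := by
  refine ⟨AppR_smul c hx.1, ?_⟩
  have := AppR_smul (star c) hx.2
  simpa only [star_smul] using this

lemma appS_mul {x y : ℕ → H →L[ℂ] H} (hx : x ∈ AppS M ξ) (hy : y ∈ AppS M ξ) :
    (fun n => x n * y n) ∈ AppS M ξ := by
  refine ⟨AppR_mul hx.1 hy.1, ?_⟩
  have := AppR_mul hy.2 hx.2
  simpa only [star_mul] using this

lemma appS_star {x : ℕ → H →L[ℂ] H} (hx : x ∈ AppS M ξ) :
    (fun n => star (x n)) ∈ AppS M ξ := by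
  refine ⟨hx.2, ?_⟩
  simpa only [star_star] using hx.1

lemma appS_const (S : Setting M N E ξ) {x : H →L[ℂ] H} (hx : x ∈ M) :
    (fun _ => x) ∈ AppS M ξ :=
  ⟨AppR_const S.dense_comm hx, AppR_const S.dense_comm (star_mem hx)⟩

end U10

open U10

namespace Oc

variable {MT NT : VonNeumannAlgebra K} {ET : (K →L[ℂ] K) → (K →L[ℂ] K)} {ζ : K}
  {rep : (ℕ → H →L[ℂ] H) → (K →L[ℂ] K)} (O : Oc M N E ξ MT NT ET ζ rep)
include O

/-- the vector state of the ultrapower -/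
lemma U10_state (S : Setting M N E ξ) {x : ℕ → H →L[ℂ] H} (hx : x ∈ AppS M ξ) :
    Tendsto (fun n => ⟪ξ, x n ξ⟫_ℂ) (UU : Filter ℕ) (𝓝 ⟪ζ, rep x ζ⟫_ℂ) := by
  have h := O.inner (fun _ => 1) (appS_const S (one_mem M)) x hx
  rw [O.one] at h
  simpa only [one_apply_eq_self] using h

lemma U10_norm {x : ℕ → H →L[ℂ] H} (hx : x ∈ AppS M ξ) :
    Tendsto (fun n => ‖x n ξ‖) (UU : Filter ℕ) (𝓝 ‖rep x ζ‖) := by
  have h := O.inner x hx x hx
  have h2 : Tendsto (fun n => ‖x n ξ‖ ^ 2) (UU : Filter ℕ) (𝓝 (‖rep x ζ‖ ^ 2)) := by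
    have h3 := (Complex.continuous_re.tendsto _).comp h
    have e1 : ∀ {G : Type u} [NormedAddCommGroup G] [InnerProductSpace ℂ G] (v : G),
        (⟪v, v⟫_ℂ).re = ‖v‖ ^ 2 := by
      intro G _ _ v
      rw [inner_self_eq_norm_sq_to_K]
      norm_cast
    rw [e1] at h3
    refine h3.congr fun n => ?_
    exact e1 _
  have h4 := (Real.continuous_sqrt.tendsto _).comp h2
  rw [Real.sqrt_sq (norm_nonneg _)] at h4
  refine h4.congr fun n => ?_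
  exact Real.sqrt_sq (norm_nonneg _)

lemma U10_comm {x y a : ℕ → H →L[ℂ] H} (hx : x ∈ AppS M ξ) (hy : y ∈ AppS M ξ)
    (ha : a ∈ AppS M ξ) :
    (fun n => a n * x n - y n * a n) ∈ AppS M ξ ∧
      rep (fun n => a n * x n - y n * a n) = rep a * rep x - rep y * rep a := by
  have e1 : (fun n => a n * x n - y n * a n) = fun n => a n * x n + (-1 : ℂ) • (y n * a n) := by
    funext n
    rw [neg_one_smul, sub_eq_add_neg]
  have m1 := appS_mul ha hx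
  have m2 := appS_mul hy ha
  have m3 := appS_smul (-1) m2
  rw [e1]
  refine ⟨appS_add m1 m3, ?_⟩
  rw [O.add _ m1 _ m3, O.smul _ _ m2, O.mul _ ha _ hx, O.mul _ hy _ ha, neg_one_smul,
    sub_eq_add_neg]

/-- U10a -/
theorem defect (S : Setting M N E ξ) {l δ δ' : ℝ} (hl : 0 < l) (hδ0 : 0 ≤ δ) (hδ : δ < δ')
    {a : ℕ → H →L[ℂ] H} (ha : a ∈ AppS M ξ) (haN : ∀ n, a n ∈ N)
    (hD : Defect NT ζ l δ (rep a)) : ∀ᶠ n in (UU : Filter ℕ), Defect N ξ l δ' (a n) := by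
  by_contra hcon
  have hcon' := not_eventually hcon
  -- the test elements
  have hz : ∀ n, ∃ z ∈ N, ‖z‖ ≤ 1 ∧ (¬ Defect N ξ l δ' (a n) →
      δ' < ‖⟪ξ, z (a n ξ)⟫_ℂ - l * ⟪ξ, a n (z ξ)⟫_ℂ‖) := by
    intro n
    by_cases hn : Defect N ξ l δ' (a n)
    · exact ⟨0, zero_mem N, by simp, fun h => absurd hn h⟩
    · have hn2 := hn
      rw [Defect] at hn2
      push Not at hn2
      obtain ⟨z, hzN, hz⟩ := hn2
      have hz0 : 0 < ‖z‖ := by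
        rw [norm_pos_iff]
        rintro rfl
        simp at hz
      refine ⟨((‖z‖⁻¹ : ℝ) : ℂ) • z, smul_mem' _ hzN, ?_, fun _ => ?_⟩
      · rw [norm_smul, Complex.norm_real, norm_inv, norm_norm, inv_mul_cancel₀ hz0.ne']
      · have e1 : ⟪ξ, (((‖z‖⁻¹ : ℝ) : ℂ) • z) (a n ξ)⟫_ℂ -
            l * ⟪ξ, a n ((((‖z‖⁻¹ : ℝ) : ℂ) • z) ξ)⟫_ℂ =
            ((‖z‖⁻¹ : ℝ) : ℂ) * (⟪ξ, z (a n ξ)⟫_ℂ - l * ⟪ξ, a n (z ξ)⟫_ℂ) := by
          rw [smul_apply, smul_apply, map_smul, inner_smul_right, inner_smul_right]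
          ring
        rw [e1, norm_mul, Complex.norm_real, norm_inv, norm_norm]
        rw [inv_mul_eq_div, lt_div_iff₀ hz0]
        exact hz
  choose z hzN hz1 hzd using hz
  obtain ⟨s, C, ρ, hρ, hs, hs1, hs2⟩ := S.exists_smooth
  -- the smoothed sequences
  have hZ : ∀ j, (fun n => s j (z n)) ∈ AppS M ξ := by
    intro j
    have hb : ∀ n, ‖s j (z n)‖ ≤ 1 := fun n => ((hs j (z n) (hzN n)).2.1).trans (hz1 n)
    choose r hr hrn hrξ using fun n => (hs j (z n) (hzN n)).2.2.1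
    choose r' hr' hrn' hrξ' using fun n => (hs j (z n) (hzN n)).2.2.2
    have bd : ∀ n, C j * ‖z n‖ ≤ |C j| := fun n => by
      calc C j * ‖z n‖ ≤ |C j| * ‖z n‖ := mul_le_mul_of_nonneg_right (le_abs_self _) (norm_nonneg _)
        _ ≤ |C j| * 1 := mul_le_mul_of_nonneg_left (hz1 n) (abs_nonneg _)
        _ = |C j| := mul_one _
    refine ⟨⟨fun n => S.le _ (hs j (z n) (hzN n)).1, ⟨1, hb⟩, fun ε hε => ⟨r, hr,
      ⟨|C j|, fun n => (hrn n).trans (bd n)⟩, ?_⟩⟩,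
      ⟨fun n => star_mem (S.le _ (hs j (z n) (hzN n)).1), ⟨1, fun n => ?_⟩, fun ε hε => ⟨r', hr',
      ⟨|C j|, fun n => (hrn' n).trans (bd n)⟩, ?_⟩⟩⟩
    · filter_upwards with n
      rw [hrξ, sub_self, norm_zero]
      exact hε.le
    · rw [norm_star]; exact hb n
    · filter_upwards with n
      rw [hrξ', sub_self, norm_zero]
      exact hε.le
  -- constants
  obtain ⟨A, hA0, hA⟩ := U2.bdd_nonneg ha.1.2.1
  set g : ℝ := δ' - δ with hg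
  have hg0 : 0 < g := sub_pos.2 hδ
  set e : ℝ := g / (16 * (1 + l)) with he
  have he0 : 0 < e := by positivity
  obtain ⟨r, hr, hrB, hre⟩ := ha.1.2.2 e he0
  obtain ⟨r', hr', hrB', hre'⟩ := ha.2.2.2 e he0
  obtain ⟨B, hB0, hB⟩ := U2.bdd_nonneg hrB
  obtain ⟨B', hB0', hB'⟩ := U2.bdd_nonneg hrB'
  obtain ⟨j, hj⟩ : ∃ j, |ρ j| * ((A + B) + l * (A + B')) ≤ g / 8 := by
    have h1 : Tendsto (fun j => |ρ j| * ((A + B) + l * (A + B'))) atTop (𝓝 0) := by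
      have := (hρ.abs).mul_const ((A + B) + l * (A + B'))
      simpa using this
    have h2 := (h1.eventually (gt_mem_nhds (by positivity : (0 : ℝ) < g / 8))).exists
    obtain ⟨j, hj⟩ := h2
    exact ⟨j, hj.le⟩
  have hZj := hZ j
  set Z : ℕ → H →L[ℂ] H := fun n => s j (z n) with hZdef
  have hZN : ∀ n, Z n ∈ N := fun n => (hs j (z n) (hzN n)).1
  have hZn : ∀ n, ‖Z n‖ ≤ 1 := fun n => ((hs j (z n) (hzN n)).2.1).trans (hz1 n)
  have hrepZ : rep Z ∈ NT := O.memN Z hZj hZN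
  have hrepZn : ‖rep Z‖ ≤ 1 := O.norm Z hZj 1 hZn
  have hD' := hD (rep Z) hrepZ
  have t1 := O.U10_state S (appS_mul hZj ha)
  have t2 := O.U10_state S (appS_mul ha hZj)
  rw [O.mul _ hZj _ ha] at t1
  rw [O.mul _ ha _ hZj] at t2
  have t3 : Tendsto (fun n => ‖⟪ξ, (Z n * a n) ξ⟫_ℂ - l * ⟪ξ, (a n * Z n) ξ⟫_ℂ‖) (UU : Filter ℕ)
      (𝓝 ‖⟪ζ, (rep Z * rep a) ζ⟫_ℂ - l * ⟪ζ, (rep a * rep Z) ζ⟫_ℂ‖) :=
    (t1.sub (t2.const_mul _)).norm
  have t4 : ‖⟪ζ, (rep Z * rep a) ζ⟫_ℂ - l * ⟪ζ, (rep a * rep Z) ζ⟫_ℂ‖ < δ + g / 8 := by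
    have h1 : ‖⟪ζ, (rep Z * rep a) ζ⟫_ℂ - l * ⟪ζ, (rep a * rep Z) ζ⟫_ℂ‖ ≤ δ * ‖rep Z‖ := hD'
    have h2 : δ * ‖rep Z‖ ≤ δ * 1 := mul_le_mul_of_nonneg_left hrepZn hδ0
    linarith
  have t5 := t3.eventually (gt_mem_nhds t4)
  have hUU : (UU : Filter ℕ).NeBot := Ultrafilter.neBot _
  obtain ⟨n, h1, h2, h3, h4⟩ := (hcon'.and (t5.and (hre.and hre'))).exists
  have k1 := hzd n h1
  have k2 := hs1 j (z n) (hzN n) (a n) (S.le _ (haN n)) (r n) (hr n)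
  have k3 := hs2 j (z n) (hzN n) (a n) (S.le _ (haN n)) (r' n) (hr' n)
  have k4 : ‖⟪ξ, Z n (a n ξ)⟫_ℂ - ⟪ξ, z n (a n ξ)⟫_ℂ‖ ≤ 2 * e + |ρ j| * (A + B) := by
    refine k2.trans ?_
    have h5 : 2 * ‖a n ξ - r n ξ‖ + ρ j * (‖a n‖ + ‖r n‖) ≤ 2 * e + |ρ j| * (A + B) := by
      have h6 : ρ j * (‖a n‖ + ‖r n‖) ≤ |ρ j| * (A + B) :=
        mul_le_mul (le_abs_self _) (add_le_add (hA n) (hB n)) (by positivity) (abs_nonneg _)
      linarith
    calc ‖z n‖ * (2 * ‖a n ξ - r n ξ‖ + ρ j * (‖a n‖ + ‖r n‖))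
        ≤ ‖z n‖ * (2 * e + |ρ j| * (A + B)) := mul_le_mul_of_nonneg_left h5 (norm_nonneg _)
      _ ≤ 1 * (2 * e + |ρ j| * (A + B)) := mul_le_mul_of_nonneg_right (hz1 n) (by positivity)
      _ = _ := one_mul _
  have k5 : ‖⟪ξ, a n (Z n ξ)⟫_ℂ - ⟪ξ, a n (z n ξ)⟫_ℂ‖ ≤ 2 * e + |ρ j| * (A + B') := by
    refine k3.trans ?_
    have h5 : 2 * ‖(Star.star (a n)) ξ - r' n ξ‖ + ρ j * (‖a n‖ + ‖r' n‖) ≤
        2 * e + |ρ j| * (A + B') := by
      have h6 : ρ j * (‖a n‖ + ‖r' n‖) ≤ |ρ j| * (A + B') :=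
        mul_le_mul (le_abs_self _) (add_le_add (hA n) (hB' n)) (by positivity) (abs_nonneg _)
      linarith
    calc ‖z n‖ * (2 * ‖(Star.star (a n)) ξ - r' n ξ‖ + ρ j * (‖a n‖ + ‖r' n‖))
        ≤ ‖z n‖ * (2 * e + |ρ j| * (A + B')) := mul_le_mul_of_nonneg_left h5 (norm_nonneg _)
      _ ≤ 1 * (2 * e + |ρ j| * (A + B')) := mul_le_mul_of_nonneg_right (hz1 n) (by positivity)
      _ = _ := one_mul _
  have k6 : ‖⟪ξ, z n (a n ξ)⟫_ℂ - l * ⟪ξ, a n (z n ξ)⟫_ℂ‖ ≤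
      ‖⟪ξ, Z n (a n ξ)⟫_ℂ - l * ⟪ξ, a n (Z n ξ)⟫_ℂ‖ +
      ‖⟪ξ, Z n (a n ξ)⟫_ℂ - ⟪ξ, z n (a n ξ)⟫_ℂ‖ +
      l * ‖⟪ξ, a n (Z n ξ)⟫_ℂ - ⟪ξ, a n (z n ξ)⟫_ℂ‖ := by
    have e1 : ⟪ξ, z n (a n ξ)⟫_ℂ - l * ⟪ξ, a n (z n ξ)⟫_ℂ =
        (⟪ξ, Z n (a n ξ)⟫_ℂ - l * ⟪ξ, a n (Z n ξ)⟫_ℂ) -
        (⟪ξ, Z n (a n ξ)⟫_ℂ - ⟪ξ, z n (a n ξ)⟫_ℂ) +
        l * (⟪ξ, a n (Z n ξ)⟫_ℂ - ⟪ξ, a n (z n ξ)⟫_ℂ) := by ring
    have e2 : ‖(l : ℂ) * (⟪ξ, a n (Z n ξ)⟫_ℂ - ⟪ξ, a n (z n ξ)⟫_ℂ)‖ =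
        l * ‖⟪ξ, a n (Z n ξ)⟫_ℂ - ⟪ξ, a n (z n ξ)⟫_ℂ‖ := by
      rw [norm_mul, Complex.norm_real, Real.norm_of_nonneg hl.le]
    rw [e1]
    refine (norm_add_le _ _).trans ?_
    rw [e2]
    exact add_le_add (norm_sub_le _ _) le_rfl
  have k7 : ‖⟪ξ, Z n (a n ξ)⟫_ℂ - l * ⟪ξ, a n (Z n ξ)⟫_ℂ‖ < δ + g / 8 := h2
  have k8 : 2 * e * (1 + l) = g / 8 := by
    rw [he]
    field_simp
    ring
  have k9 : l * ‖⟪ξ, a n (Z n ξ)⟫_ℂ - ⟪ξ, a n (z n ξ)⟫_ℂ‖ ≤ l * (2 * e + |ρ j| * (A + B')) :=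
    mul_le_mul_of_nonneg_left k5 hl.le
  have : δ' < δ + g / 8 + (2 * e * (1 + l)) + |ρ j| * ((A + B) + l * (A + B')) := by
    linarith
  rw [k8] at this
  linarith

/-- U10a' -/
theorem exists_lamU (S : Setting M N E ξ) {l : ℝ} (hl : 0 < l) {A : K →L[ℂ] K}
    (hA : A ∈ eig NT ζ l) : ∃ a, LamU N ξ l a ∧ (∀ n, ‖a n‖ ≤ 2 * ‖A‖) ∧ A = rep a := by
  obtain ⟨a, ha, haN, han, rfl⟩ := O.surjN A hA.1
  refine ⟨a, ⟨haN, ⟨_, han⟩, fun ε hε => ?_⟩, han, rfl⟩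
  exact O.defect S hl le_rfl hε ha haN (Defect.of_eig le_rfl hA)

/-- U10b: saturation -/
theorem rel_approx (S : Setting M N E ξ) {l : ℝ} (hl : 0 < l) {x y : ℕ → H →L[ℂ] H}
    (hx : x ∈ AppS M ξ) (hy : y ∈ AppS M ξ)
    (h : ∀ A ∈ eig NT ζ l, A * rep x = rep y * A) (C : ℝ) {ε : ℝ} (hε : 0 < ε) :
    ∃ δ : ℝ, 0 < δ ∧ ∀ᶠ n in (UU : Filter ℕ), ∀ a ∈ N, ‖a‖ ≤ C → Defect N ξ l δ a →
      ‖(a * x n - y n * a) ξ‖ ≤ ε := by
  by_contra hcon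
  push Not at hcon
  have h1 : ∀ k : ℕ, ∀ᶠ n in (UU : Filter ℕ), ∃ a ∈ N, ‖a‖ ≤ C ∧
      Defect N ξ l (1 / ((k : ℝ) + 1)) a ∧ ε < ‖(a * x n - y n * a) ξ‖ := by
    intro k
    have h2 := hcon (1 / ((k : ℝ) + 1)) (by positivity)
    exact h2
  obtain ⟨k, hk, hk'⟩ := exists_diag h1
  classical
  set a : ℕ → H →L[ℂ] H := fun n => if hn : ∃ a ∈ N, ‖a‖ ≤ C ∧
      Defect N ξ l (1 / ((k n : ℝ) + 1)) a ∧ ε < ‖(a * x n - y n * a) ξ‖ then hn.choose else 0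
    with ha
  have haN : ∀ n, a n ∈ N := by
    intro n
    simp only [ha]
    split_ifs with hn
    · exact hn.choose_spec.1
    · exact zero_mem N
  have haB : Bdd a := by
    refine ⟨|C|, fun n => ?_⟩
    simp only [ha]
    split_ifs with hn
    · exact hn.choose_spec.2.1.trans (le_abs_self C)
    · rw [norm_zero]; exact abs_nonneg C
  have hev : ∀ᶠ n in (UU : Filter ℕ), Defect N ξ l (1 / ((k n : ℝ) + 1)) (a n) ∧
      ε < ‖(a n * x n - y n * a n) ξ‖ := by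
    filter_upwards [hk] with n hn
    simp only [ha]
    rw [dif_pos hn]
    exact hn.choose_spec.2.2
  have hLam : LamU N ξ l a := by
    refine ⟨haN, haB, fun η hη => ?_⟩
    obtain ⟨m, hm⟩ := exists_nat_one_div_lt hη
    filter_upwards [hev, hk' m] with n hn hmn
    refine hn.1.mono (le_trans ?_ hm.le)
    have : (m : ℝ) ≤ k n := by exact_mod_cast hmn
    exact one_div_le_one_div_of_le (by positivity) (by linarith)
  have haS := S.lamU_appS hl hLam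
  obtain ⟨hw, hrw⟩ := O.U10_comm hx hy haS
  have h5 : rep (fun n => a n * x n - y n * a n) = 0 := by
    rw [hrw, h _ (O.eig_of_lamU S hl hLam), sub_self]
  have h6 := O.U10_norm hw
  rw [h5] at h6
  simp only [zero_apply, norm_zero] at h6
  have h7 := h6.eventually (gt_mem_nhds hε)
  have hUU : (UU : Filter ℕ).NeBot := Ultrafilter.neBot _
  obtain ⟨n, h8, h9⟩ := (h7.and hev).exists
  linarith [h9.2]

/-- U10c -/
theorem bicent_of_Qalg (S : Setting M N E ξ) {z : K →L[ℂ] K} (hz : z ∈ Qalg MT NT ζ) :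
    z ∈ Bicent MT NT ζ := by
  rw [mem_Qalg] at hz
  obtain ⟨hzM, hzc⟩ := hz
  refine ⟨hzM, fun A hA η => ?_⟩
  obtain ⟨hAN, ⟨C, hC⟩, hAD⟩ := hA
  have hC0 : 0 ≤ C := (norm_nonneg _).trans (hC 0)
  obtain ⟨x, hx, -, hzx⟩ := O.surjM z hzM
  have key : Tendsto (fun n => (z * A n - A n * z) ζ) atTop (𝓝 0) := by
    rw [tendsto_zero_iff_norm_tendsto_zero]
    rw [Metric.tendsto_atTop]
    intro ε hε
    obtain ⟨δ, hδ, hev⟩ := O.rel_approx S one_pos hx hx (by rw [← hzx]; exact hzc) (2 * C)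
      (half_pos hε)
    obtain ⟨n₀, hn₀⟩ := eventually_atTop.1 (hAD (δ / 2) (half_pos hδ))
    refine ⟨n₀, fun n hn => ?_⟩
    obtain ⟨a, ha, haN, han, hAa⟩ := O.surjN (A n) (hAN n)
    have hD := hn₀ n hn
    rw [hAa] at hD
    have h1 := O.defect S one_pos (half_pos hδ).le (half_lt_self hδ) ha haN hD
    obtain ⟨hw, hrw⟩ := O.U10_comm hx hx ha
    have h2 := O.U10_norm hw
    have h3 : ‖rep (fun n => a n * x n - x n * a n) ζ‖ ≤ ε / 2 := by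
      refine le_of_tendsto h2 ?_
      filter_upwards [hev, h1] with m hm1 hm2
      refine hm1 (a m) (haN m) ?_ hm2
      exact (han m).trans (mul_le_mul_of_nonneg_left (hC n) (by norm_num))
    rw [hrw, ← hAa, ← hzx] at h3
    rw [Real.dist_eq, sub_zero, abs_of_nonneg (norm_nonneg _)]
    have e1 : (z * A n - A n * z) ζ = -((A n * z - z * A n) ζ) := by
      simp only [sub_apply]
      abel
    rw [e1, norm_neg]
    linarith
  have h4 := tendsto_of_bounded MT O.set.dense_comm (x := fun n => z * A n - A n * z)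
    (C := 2 * (‖z‖ * C)) (fun n => sub_mem (mul_mem hzM (O.set.le _ (hAN n)))
      (mul_mem (O.set.le _ (hAN n)) hzM)) (fun n => by
      refine (norm_sub_le _ _).trans ?_
      have h5 : ‖z * A n‖ ≤ ‖z‖ * C :=
        (norm_mul_le _ _).trans (mul_le_mul_of_nonneg_left (hC n) (norm_nonneg _))
      have h6 : ‖A n * z‖ ≤ ‖z‖ * C := by
        refine (norm_mul_le _ _).trans ?_
        rw [mul_comm]
        exact mul_le_mul_of_nonneg_left (hC n) (norm_nonneg _)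
      linarith) key η
  exact h4

/-- U10d -/
theorem const_mem_Qalg (S : Setting M N E ξ) {x : H →L[ℂ] H} (hx : x ∈ Bicent M N ξ) :
    rep (fun _ => x) ∈ Qalg MT NT ζ := by
  have hxM : x ∈ M := hx.1
  have hxS := appS_const S hxM
  have hrM := O.memM _ hxS
  rw [mem_Qalg]
  refine ⟨hrM, fun A hA => ?_⟩
  obtain ⟨a, haL, han, hAa⟩ := O.exists_lamU S one_pos hA
  have haS := S.lamU_appS one_pos haL
  -- modulus of continuity
  have hmod : ∀ ε : ℝ, 0 < ε → ∃ δ : ℝ, 0 < δ ∧ ∀ b ∈ N, ‖b‖ ≤ 2 * ‖A‖ → Defect N ξ 1 δ b →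
      ‖(b * x - x * b) ξ‖ ≤ ε := by
    intro ε hε
    by_contra hcon
    push Not at hcon
    choose b hbN hbn hbD hbε using fun k : ℕ => hcon (1 / ((k : ℝ) + 1)) (by positivity)
    have hb : LamSeq N ξ 1 b := by
      refine ⟨hbN, ⟨_, hbn⟩, fun η hη => ?_⟩
      obtain ⟨m, hm⟩ := exists_nat_one_div_lt hη
      filter_upwards [eventually_ge_atTop m] with n hn
      refine (hbD n).mono (le_trans ?_ hm.le)
      have : (m : ℝ) ≤ n := by exact_mod_cast hn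
      exact one_div_le_one_div_of_le (by positivity) (by linarith)
    have h1 := (hx.2 b hb ξ).norm
    rw [norm_zero] at h1
    obtain ⟨n, hn⟩ := (h1.eventually (gt_mem_nhds hε)).exists
    have h2 := hbε n
    have e1 : (b n * x - x * b n) ξ = -(x (b n ξ) - b n (x ξ)) := by
      change b n (x ξ) - x (b n ξ) = _
      abel
    rw [e1, norm_neg] at h2
    linarith
  obtain ⟨hw, hrw⟩ := O.U10_comm hxS hxS haS
  have h2 := O.U10_norm hw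
  have h3 : ‖rep (fun n => a n * x - x * a n) ζ‖ = 0 := by
    refine le_antisymm (le_of_forall_pos_le_add fun ε hε => ?_) (norm_nonneg _)
    rw [zero_add]
    obtain ⟨δ, hδ, hb⟩ := hmod ε hε
    refine le_of_tendsto h2 ?_
    filter_upwards [haL.2.2 δ hδ] with n hn
    exact hb (a n) (haL.1 n) (han n) hn
  rw [norm_eq_zero] at h3
  have h4 : rep (fun n => a n * x - x * a n) = 0 := O.set.sep _ (O.memM _ hw) h3
  rw [hrw, ← hAa, sub_eq_zero] at h4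
  exact h4

end Oc

end Pool.Agent.Helper23
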